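import Mathlib

/-!
Curves on an oriented surface `X / G`, where `G` is the deck group of the universal cover `X`
and `coord : X → ℂ` is the global oriented coordinate of `X`.
-/

namespace Pool.Agent.MP_46f5ab_gt

/-- The product of the commutators `[a_i, b_i]`, `i < n`. -/
def surfaceRelator (n : ℕ) : FreeGroup (Fin n × Bool) :=
  (List.ofFn fun i : Fin n =>
    FreeGroup.of (i, false) * FreeGroup.of (i, true) * (FreeGroup.of (i, false))⁻¹ *
      (FreeGroup.of (i, true))⁻¹).prod

/-- The fundamental group of the closed oriented surface of genus `n`. -/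
abbrev SurfaceGroup (n : ℕ) : Type := PresentedGroup ({surfaceRelator n} : Set _)

/-- The conjugacy class of `β` is not of the form `γ ^ k` with `k ≥ 2`. -/
def IsPrimitiveClass {G : Type*} [Group G] (β : G) : Prop :=
  ∀ (γ : G) (k : ℕ), 2 ≤ k → ¬ IsConj β (γ ^ k)

/-- The number of terms, counted with multiplicity, of a formal integer combination. -/
def numberOfTerms {ι : Type*} (x : ι →₀ ℤ) : ℕ := x.sum fun _ n => n.natAbs

variable (G : Type*) {X : Type*} [Group G] [MulAction G X] (coord : X → ℂ)

/-- The velocity vector of a curve in `X`. -/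
noncomputable def velocity (c : ℝ → X) (t : ℝ) : ℂ := deriv (fun u => coord (c u)) t

variable {G} in
/-- `c` is the lift to `X` of an immersed `C¹` closed curve `ℝ / ℤ → X / G` in the free homotopy
class given by the conjugacy class of the deck transformation `β`. -/
structure IsLiftedLoop (β : G) (c : ℝ → X) : Prop where
  smooth : ContDiff ℝ 1 fun u => coord (c u)
  immersed : ∀ t, velocity coord c t ≠ 0
  closes : ∀ t, c (t + 1) = β • c t

/-- The triples `(s, t, g)`: parameters `s, t ∈ [0, 1)` at which the two closed curves pass through
the same point of `X / G`, with the deck transformation `g` such that `c s = g • d t`. -/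
def meetings (c d : ℝ → X) : Set (ℝ × ℝ × G) :=
  {p | p.1 ∈ Set.Ico (0 : ℝ) 1 ∧ p.2.1 ∈ Set.Ico (0 : ℝ) 1 ∧ c p.1 = p.2.2 • d p.2.1}

variable {G} in
/-- The determinant of the velocity of `c` at `s` and the velocity of `g • d` at `t`. -/
noncomputable def crossDet (c d : ℝ → X) (p : ℝ × ℝ × G) : ℝ :=
  (starRingEnd ℂ (velocity coord c p.1) * velocity coord (fun u => p.2.2 • d u) p.2.1).im

/-- The two closed curves meet only transversally. -/
def MeetTransversally (c d : ℝ → X) : Prop := ∀ p ∈ meetings G c d, crossDet coord c d p ≠ 0

variable {G} in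
/-- The Goldman bracket, computed from a curve `c` in the class of `α` and a curve `d` in the class
of `β`: the sum over the intersection points of the sign times the class of the loop product. -/
noncomputable def goldmanBracket (α β : G) (c d : ℝ → X) : ConjClasses G →₀ ℤ :=
  ∑ᶠ p ∈ meetings G c d,
    Finsupp.single (ConjClasses.mk (α * (p.2.2 * β * p.2.2⁻¹)))
      ((SignType.sign (crossDet coord c d p) : SignType) : ℤ)

/-- The self-intersections of the closed curve: unordered pairs of distinct parameters in `[0, 1)`
with the same image in `X / G`. -/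
def doublePoints (c : ℝ → X) : Set (ℝ × ℝ × G) := {p | p ∈ meetings G c c ∧ p.1 < p.2.1}

variable {G} in
/-- A closed curve in the class of `β` whose only singularities are transverse double points. -/
structure IsGenericLoop (β : G) (c : ℝ → X) : Prop extends IsLiftedLoop coord β c where
  transverse : ∀ p ∈ doublePoints G c, crossDet coord c c p ≠ 0
  noTriplePoint : ∀ r ∈ Set.Ico (0 : ℝ) 1, ∀ s ∈ Set.Ico (0 : ℝ) 1, ∀ t ∈ Set.Ico (0 : ℝ) 1,
    r < s → s < t → ¬ (c s ∈ MulAction.orbit G (c r) ∧ c t ∈ MulAction.orbit G (c r))

variable {G} in
/-- The self-intersection number: the least number of double points of a generic representative. -/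
noncomputable def selfIntersection (β : G) : ℕ∞ :=
  ⨅ (c : ℝ → X) (_ : IsGenericLoop coord β c), (doublePoints G c).encard

end Pool.Agent.MP_46f5ab_gt
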