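import Pool.Agent.Mg.F46f5abp.Gdd6656

/-! Counting the terms of the bracket of two powers of one class. -/

namespace Pool.Agent.MP_46f5ab_gt

open Set Filter Topology

variable {G X : Type*} [Group G] [MulAction G X]

/-- The statement of the theorem for one class and two exponents. -/
def MainPow (co : X → ℂ) (β : G) (m n : ℤ) : Prop :=
  (∃ c d, IsLiftedLoop co (β ^ m) c ∧ IsLiftedLoop co (β ^ n) d ∧ MeetTransversally G co c d) ∧
  ∀ c d, IsLiftedLoop co (β ^ m) c → IsLiftedLoop co (β ^ n) d → MeetTransversally G co c d →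
    (meetings G c d).Finite ∧
      (numberOfTerms (goldmanBracket co (β ^ m) (β ^ n) c d) : ℕ∞) =
        2 * ((m * n).natAbs : ℕ∞) * selfIntersection co β

variable {co co' : X → ℂ} {β : G}

lemma MainPow.transfer {m n : ℤ} (h : Conf co co') (h' : Conf co' co)
    (hG : ∀ g : G, Conf co fun x => co (g • x)) (hG' : ∀ g : G, Conf co' fun x => co' (g • x))
    (hm : MainPow co' β m n) : MainPow co β m n := by
  obtain ⟨⟨c, d, h1, h2, h3⟩, h4⟩ := hm
  refine ⟨⟨c, d, h'.lifted h1, h'.lifted h2, h'.transversal hG' h1.smooth h2.smooth h3⟩,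
    fun c d h1 h2 h3 => ?_⟩
  obtain ⟨h5, h6⟩ := h4 c d (h.lifted h1) (h.lifted h2) (h.transversal hG h1.smooth h2.smooth h3)
  refine ⟨h5, ?_⟩
  have e1 : goldmanBracket co (β ^ m) (β ^ n) c d = goldmanBracket co' (β ^ m) (β ^ n) c d := by
    refine finsum_mem_congr rfl fun p hp => ?_
    obtain ⟨r, g1, g2⟩ := h.crossDet hG h1.smooth h2.smooth hp
    rw [g2, sign_mul, sign_pos g1, one_mul]
  have e2 : selfIntersection co β = selfIntersection co' β :=
    iInf_congr fun c => iInf_congr_Prop ⟨h.generic hG, h'.generic hG'⟩ fun _ => rfl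
  rw [e1, e2, h6]

/-- Double cosets of two cyclic groups. -/
def dc2 (α γ : G) : Setoid G where
  r g h := ∃ i j : ℤ, h = α ^ i * g * γ ^ j
  iseqv := ⟨fun g => ⟨0, 0, by simp⟩, by
    rintro g _ ⟨m, n, rfl⟩
    exact ⟨-m, -n, by group⟩, by
    rintro g _ _ ⟨m, n, rfl⟩ ⟨m', n', rfl⟩
    exact ⟨m' + m, n + n', by group⟩⟩

def fib2 (α γ : G) (c d : ℝ → X) (g : G) : Set (ℝ × ℝ × G) :=
  {p | p ∈ meetings G c d ∧ dc2 α γ g p.2.2}

noncomputable def red2 (α γ g : G) (p : ℝ × ℝ) : ℝ × ℝ × G :=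
  (Int.fract p.1, Int.fract p.2, α ^ (-⌊p.1⌋) * g * γ ^ ⌊p.2⌋)

variable {α γ : G} {c d : ℝ → X}

lemma fib_eq_fib2 (β g : G) : fib β c d g = fib2 β β⁻¹ c d g :=
  Set.ext fun _ => and_congr_right fun _ =>
    ⟨fun ⟨i, j, h⟩ => ⟨i, -j, by rw [h]; group⟩, fun ⟨i, j, h⟩ => ⟨i, -j, by rw [h]; group⟩⟩

lemma red2_spec (hG : ∀ g : G, Conf co fun x => co (g • x)) (hc : IsLiftedLoop co α c)
    (hd : IsLiftedLoop co γ d) (g : G) {p : ℝ × ℝ} (hp : c p.1 = g • d p.2) :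
    red2 α γ g p ∈ fib2 α γ c d g ∧ ∃ r : ℝ, 0 < r ∧
      dt (fun u => co (c u)) (fun u => co (g • d u)) p = r * crossDet co c d (red2 α γ g p) := by
  set g' := α ^ (-⌊p.1⌋) * g * γ ^ ⌊p.2⌋ with hg'
  have e1 : ∀ u, c (u + ⌊p.1⌋) = α ^ ⌊p.1⌋ • c u := closes_zpow hc.closes _
  have e2 : ∀ u, g • d (u + ⌊p.2⌋) = α ^ ⌊p.1⌋ • g' • d u := fun u => by
    rw [closes_zpow hd.closes, ← mul_smul, ← mul_smul, hg']
    congr 1
    group
  have e3 : c (Int.fract p.1) = g' • d (Int.fract p.2) := by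
    rw [← smul_left_cancel_iff (α ^ ⌊p.1⌋), ← e1, ← e2, Int.fract_add_floor, Int.fract_add_floor, hp]
  refine ⟨⟨⟨⟨Int.fract_nonneg _, Int.fract_lt_one _⟩, ⟨Int.fract_nonneg _, Int.fract_lt_one _⟩, e3⟩,
    _, _, rfl⟩, ?_⟩
  obtain ⟨m, h1, h2⟩ := hG (α ^ ⌊p.1⌋)
  obtain ⟨m', -, h3⟩ := hG g'
  have a1 : deriv (fun u => co (c u)) p.1 = m (c (Int.fract p.1)) * velocity co c (Int.fract p.1) := by
    rw [← (h2 c hc.smooth).2, velocity]
    simp only [← e1]
    rw [deriv_comp_add_const (fun u => co (c u)), Int.fract_add_floor]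
  have a2 : deriv (fun u => co (g • d u)) p.2 =
      m (c (Int.fract p.1)) * velocity co (fun u => g' • d u) (Int.fract p.2) := by
    rw [e3, ← (h2 (fun u => g' • d u) (h3 d hd.smooth).1).2, velocity]
    simp only [← e2]
    rw [deriv_comp_add_const (fun u => co (g • d u)), Int.fract_add_floor]
  refine ⟨Complex.normSq (m (c (Int.fract p.1))), Complex.normSq_pos.2 (h1 _), ?_⟩
  rw [dt, a1, a2, im_conj_mul]
  rfl

lemma red2_surj (hc : ∀ t, c (t + 1) = α • c t) (hd : ∀ t, d (t + 1) = γ • d t) {g : G}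
    {q : ℝ × ℝ × G} (hq : q ∈ fib2 α γ c d g) :
    ∃ p : ℝ × ℝ, c p.1 = g • d p.2 ∧ red2 α γ g p = q := by
  obtain ⟨⟨h1, h2, h3⟩, m, n, h⟩ := hq
  refine ⟨(q.1 - m, q.2.1 + n), ?_, ?_⟩
  · have e1 := closes_zpow hc (-m) q.1
    rw [Int.cast_neg, ← sub_eq_add_neg] at e1
    rw [e1, closes_zpow hd, h3, h, ← mul_smul, ← mul_smul]
    congr 1
    group
  · simp only [red2, Int.fract_sub_intCast, Int.floor_sub_intCast, Int.fract_add_intCast,
      Int.floor_add_intCast, Int.fract_eq_self.2 h1, Int.fract_eq_self.2 h2,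
      Int.floor_eq_zero_iff.2 h1, Int.floor_eq_zero_iff.2 h2, zero_sub, zero_add, neg_neg, ← h]

lemma red2_eq_iff {g : G} {p q : ℝ × ℝ} : red2 α γ g p = red2 α γ g q ↔
    ∃ k l : ℤ, p.1 = q.1 + k ∧ p.2 = q.2 + l ∧ α ^ (-k) * g * γ ^ l = g := by
  simp only [red2, Prod.mk.injEq]
  constructor
  · rintro ⟨h1, h2, h3⟩
    refine ⟨⌊p.1⌋ - ⌊q.1⌋, ⌊p.2⌋ - ⌊q.2⌋, ?_, ?_, ?_⟩
    · unfold Int.fract at h1
      push_cast
      linarith
    · unfold Int.fract at h2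
      push_cast
      linarith
    · calc _ = α ^ ⌊q.1⌋ * (α ^ (-⌊p.1⌋) * g * γ ^ ⌊p.2⌋) * γ ^ (-⌊q.2⌋) := by group
        _ = g := by rw [h3]; group
  · rintro ⟨k, l, h1, h2, h3⟩
    rw [h1, h2, Int.fract_add_intCast, Int.fract_add_intCast, Int.floor_add_intCast,
      Int.floor_add_intCast]
    refine ⟨rfl, rfl, ?_⟩
    calc _ = α ^ (-⌊q.1⌋) * (α ^ (-k) * g * γ ^ l) * γ ^ ⌊q.2⌋ := by group
      _ = _ := by rw [h3]

lemma IsLiftedLoop.scale (hc : IsLiftedLoop co α c) {k : ℤ} (hk : k ≠ 0) :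
    IsLiftedLoop co (α ^ k) fun u => c (k * u) := by
  refine ⟨hc.smooth.comp (contDiff_const.mul contDiff_id), fun t => ?_, fun t => ?_⟩
  · unfold velocity
    rw [deriv_comp_mul_left (k : ℝ) (fun u => co (c u))]
    exact smul_ne_zero (Int.cast_ne_zero.2 hk) (hc.immersed _)
  · rw [mul_add, mul_one, closes_zpow hc.closes]

lemma dt_scale (f h : ℝ → ℂ) (a b : ℝ) (p : ℝ × ℝ) :
    dt (fun u => f (a * u)) (fun u => h (b * u)) p = a * b * dt f h (a * p.1, b * p.2) := by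
  rw [dt, dt, deriv_comp_mul_left a f, deriv_comp_mul_left b h]
  simp
  ring

lemma sum_of_kernel {Z A B : Type*} [Nonempty Z] {S : Set Z} {S1 : Set A} {S2 : Set B} {f1 : Z → A}
    {f2 : Z → B} (s1 : SurjOn f1 S S1) (m2 : MapsTo f2 S S2) (s2 : SurjOn f2 S S2)
    (m1 : MapsTo f1 S S1) (k : ∀ p q, f1 p = f1 q ↔ f2 p = f2 q) {w1 : A → ℤ} {w2 : B → ℤ}
    (hw : ∀ p ∈ S, w1 (f1 p) = w2 (f2 p)) (hf : S1.Finite) :
    S2.Finite ∧ ∑ᶠ x ∈ S1, w1 x = ∑ᶠ y ∈ S2, w2 y := by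
  have r := s1.rightInvOn_invFunOn
  have i := s1.mapsTo_invFunOn
  have b : BijOn (fun x => f2 (Function.invFunOn f1 S x)) S1 S2 := by
    refine ⟨fun x hx => m2 (i hx), fun x hx y hy e => ?_, fun y hy => ?_⟩
    · rw [← r hx, ← r hy]
      exact (k _ _).2 e
    · obtain ⟨p, hp, rfl⟩ := s2 hy
      exact ⟨f1 p, m1 hp, (k _ _).1 (r (m1 hp))⟩
  exact ⟨(hf.image _).subset b.surjOn, finsum_mem_eq_of_bijOn _ b fun x hx => by
    rw [← hw _ (i hx), r hx]⟩

lemma exists_lcm {m n : ℤ} (hm : m ≠ 0) (hn : n ≠ 0) :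
    ∃ (N : ℕ) (a b : ℤ), 0 < N ∧ m * a = N ∧ n * b = -N ∧ IsCoprime a b := by
  obtain ⟨m', n', h1, h2, h3⟩ := Int.exists_gcd_one (Int.gcd_pos_of_ne_zero_left n hm)
  have h4 : IsCoprime n' m' := (Int.isCoprime_iff_gcd_eq_one.2 h1).symm
  have h5 : m * n' = n * m' := by
    generalize (Int.gcd m n : ℤ) = e at h2 h3
    rw [h2, h3]; ring
  have h6 : m * n' ≠ 0 := mul_ne_zero hm (by rintro rfl; exact hn (by simpa using h3))
  refine ⟨(m * n').natAbs, ?_⟩
  rcases Int.natAbs_eq (m * n') with e | e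
  · exact ⟨n', -m', Int.natAbs_pos.2 h6, e, by rw [← e, h5]; ring, h4.neg_right⟩
  · exact ⟨-n', m', Int.natAbs_pos.2 h6, by linarith, by rw [← e, h5], h4.neg_left⟩

/-- The signed number of meetings over one double coset. -/
def FibSum2 (co : X → ℂ) (α γ : G) (c d : ℝ → X) (g : G) (n : ℤ) : Prop :=
  (fib2 α γ c d g).Finite ∧
    ∑ᶠ p ∈ fib2 α γ c d g, ((SignType.sign (crossDet co c d p) : SignType) : ℤ) = n

lemma fibSum2_pow (hG : ∀ g : G, Conf co fun x => co (g • x)) {link : G → ℤ}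
    (hsum : ∀ N : ℕ, 0 < N → ∀ c d, IsLiftedLoop co (β ^ N) c → IsLiftedLoop co (β ^ N)⁻¹ d → ∀ g,
      (∀ p ∈ fib (β ^ N) c d g, crossDet co c d p ≠ 0) → FibSum co (β ^ N) c d g (link g))
    (hzero : ∀ (g : G) (i j : ℤ), β ^ i * g * β ^ j = g → i + j = 0)
    {m n : ℤ} (hm : m ≠ 0) (hn : n ≠ 0) (hc : IsLiftedLoop co (β ^ m) c)
    (hd : IsLiftedLoop co (β ^ n) d) (ht : MeetTransversally G co c d) :
    ∃ ε : ℤ, ε.natAbs = 1 ∧ ∀ g, FibSum2 co (β ^ m) (β ^ n) c d g (ε * link g) := by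
  obtain ⟨N, a, b, hN, ha, hb, hab⟩ := exists_lcm hm hn
  have a0 : a ≠ 0 := by rintro rfl; omega
  have b0 : b ≠ 0 := by rintro rfl; omega
  have a1 : (a : ℝ) ≠ 0 := Int.cast_ne_zero.2 a0
  have b1 : (b : ℝ) ≠ 0 := Int.cast_ne_zero.2 b0
  have e1 : β ^ N = β ^ (m * a) := by rw [ha, zpow_natCast]
  have e2 : (β ^ N)⁻¹ = β ^ (n * b) := by rw [hb, zpow_neg, zpow_natCast]
  have hc' := hc.scale a0
  have hd' := hd.scale b0
  rw [← zpow_mul, ← e1] at hc'
  rw [← zpow_mul, ← e2] at hd'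
  set ε : ℤ := ((SignType.sign ((a : ℝ) * b) : SignType) : ℤ) with hε
  have hε2 : ε = 1 ∨ ε = -1 := by
    rcases lt_or_gt_of_ne (mul_ne_zero a1 b1) with h | h
    · right; rw [hε, sign_neg h]; rfl
    · left; rw [hε, sign_pos h]; rfl
  refine ⟨ε, by rcases hε2 with h | h <;> rw [h] <;> rfl, fun g => ?_⟩
  have key : ∀ p : ℝ × ℝ, c (a * p.1) = g • d (b * p.2) → ∃ r : ℝ, 0 < r ∧
      crossDet co (fun u => c (a * u)) (fun u => d (b * u)) (red2 (β ^ N) (β ^ N)⁻¹ g p) =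
        r * (a * b * crossDet co c d (red2 (β ^ m) (β ^ n) g (a * p.1, b * p.2))) := by
    intro p hp
    obtain ⟨r, r0, h1⟩ := (red2_spec hG hc' hd' g hp).2
    obtain ⟨r', r1, h2⟩ := (red2_spec hG hc hd g (p := (a * p.1, b * p.2)) hp).2
    rw [dt_scale (fun u => co (c u)) (fun u => co (g • d u)), h2] at h1
    refine ⟨r' / r, div_pos r1 r0, ?_⟩
    field_simp
    linarith
  have h1 := hsum N hN _ _ hc' hd' g (by
    rw [fib_eq_fib2]
    intro q hq
    obtain ⟨p, hp, rfl⟩ := red2_surj hc'.closes hd'.closes hq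
    obtain ⟨r, r0, e⟩ := key p hp
    rw [e]
    exact mul_ne_zero r0.ne' (mul_ne_zero (mul_ne_zero a1 b1)
      (ht _ (red2_spec hG hc hd g (p := (a * p.1, b * p.2)) hp).1.1)))
  rw [FibSum, fib_eq_fib2] at h1
  obtain ⟨h0, h1⟩ := h1
  obtain ⟨h2, h3⟩ := sum_of_kernel (S := {p : ℝ × ℝ | c (a * p.1) = g • d (b * p.2)})
    (S2 := fib2 (β ^ m) (β ^ n) c d g) (f1 := red2 (β ^ N) (β ^ N)⁻¹ g)
    (f2 := fun p => red2 (β ^ m) (β ^ n) g (a * p.1, b * p.2))
    (fun q hq => by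
      obtain ⟨p, hp, e⟩ := red2_surj hc'.closes hd'.closes hq
      exact ⟨p, hp, e⟩)
    (fun p hp => (red2_spec hG hc hd g (p := (a * p.1, b * p.2)) hp).1)
    (fun q hq => by
      obtain ⟨p, hp, rfl⟩ := red2_surj hc.closes hd.closes hq
      exact ⟨(p.1 / a, p.2 / b), by simpa [mul_div_cancel₀, a1, b1] using hp,
        by simp [mul_div_cancel₀, a1, b1]⟩)
    (fun p hp => (red2_spec hG hc' hd' g hp).1)
    (fun p q => by
      rw [red2_eq_iff, red2_eq_iff, e2, e1]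
      constructor
      · rintro ⟨k, l, g1, g2, g3⟩
        refine ⟨a * k, b * l, by rw [g1]; push_cast; ring, by rw [g2]; push_cast; ring, ?_⟩
        refine Eq.trans ?_ g3
        group
      · rintro ⟨k, l, g1, g2, g3⟩
        have g4 := hzero g (m * -k) (n * l) (by rwa [zpow_mul, zpow_mul])
        have g5 : k * b = a * -l := mul_left_cancel₀ hm (by
          linear_combination (-b) * g4 + l * hb + l * ha)
        obtain ⟨u, rfl⟩ : a ∣ k := hab.dvd_of_dvd_mul_right ⟨_, g5⟩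
        obtain rfl : l = b * -u := mul_left_cancel₀ a0 (by linear_combination g5)
        refine ⟨u, -u, mul_left_cancel₀ a1 (by dsimp only at g1; rw [g1]; push_cast; ring),
          mul_left_cancel₀ b1 (by dsimp only at g2; rw [g2]; push_cast; ring), ?_⟩
        refine Eq.trans ?_ g3
        group)
    (w1 := fun p => ε * ((SignType.sign (crossDet co (fun u => c (a * u)) (fun u => d (b * u)) p) :
      SignType) : ℤ))
    (w2 := fun p => ((SignType.sign (crossDet co c d p) : SignType) : ℤ))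
    (fun p hp => by
      obtain ⟨r, r0, e⟩ := key p hp
      rw [e, sign_mul, sign_pos r0, one_mul, sign_mul, SignType.coe_mul, ← hε, ← mul_assoc]
      rcases hε2 with h | h <;> rw [h] <;> simp) h0
  refine ⟨h2, ?_⟩
  rw [← h3, ← h1, finsum_mem_eq_finite_toFinset_sum _ h0,
    finsum_mem_eq_finite_toFinset_sum _ h0, Finset.mul_sum]

lemma count2 {lk : G → ℤ} (hfin : ((fun p => p.2.2) '' meetings G c d).Finite)
    (hs : ∀ g, FibSum2 co α γ c d g (lk g)) (habs : ∀ g, lk g ≠ 0 → (lk g).natAbs = 1)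
    (hnc : ∀ g h, IsConj (α * (g * γ * g⁻¹)) (α * (h * γ * h⁻¹)) → lk g ≠ 0 → lk h ≠ 0 →
      lk g = lk h) :
    (meetings G c d).Finite ∧ (numberOfTerms (goldmanBracket co α γ c d) : ℕ∞) =
      {D : Quotient (dc2 α γ) | lk D.out ≠ 0}.encard := by
  classical
  have hP : (meetings G c d).Finite := (hfin.biUnion fun g _ => (hs g).1).subset
    fun p hp => mem_biUnion (mem_image_of_mem _ hp) ⟨hp, (dc2 α γ).refl _⟩
  refine ⟨hP, ?_⟩
  let q : G → Quotient (dc2 α γ) := Quotient.mk _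
  have hq : ∀ g h, q g = q h ↔ dc2 α γ g h := fun g h => Quotient.eq
  have hout : ∀ D : Quotient (dc2 α γ), q D.out = D := Quotient.out_eq
  let cls : G → ConjClasses G := fun g => ConjClasses.mk (α * (g * γ * g⁻¹))
  have hcls : ∀ g h, dc2 α γ g h → cls g = cls h := by
    rintro g _ ⟨m, n, rfl⟩
    exact ConjClasses.mk_eq_mk_iff_isConj.2 (isConj_iff.2 ⟨α ^ m, by group⟩)
  let Qf := hP.toFinset.image fun p => q p.2.2
  have a1 : {D : Quotient (dc2 α γ) | lk D.out ≠ 0} = ↑(Qf.filter fun D => lk D.out ≠ 0) := by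
    ext D
    rw [Finset.coe_filter]
    refine ⟨fun h => ⟨?_, h⟩, fun h => h.2⟩
    obtain ⟨p, h1, h2⟩ : (fib2 α γ c d D.out).Nonempty := by
      by_contra h1
      rw [not_nonempty_iff_eq_empty] at h1
      have h2 := (hs D.out).2
      rw [h1, finsum_mem_empty] at h2
      exact h h2.symm
    exact Finset.mem_image.2 ⟨p, hP.mem_toFinset.2 h1, ((hq _ _).2 h2).symm.trans (hout D)⟩
  rw [a1, encard_coe_eq_coe_finsetCard, ← numberOfTerms_sum _
    (fun D : Quotient (dc2 α γ) => cls D.out)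
    (fun D : Quotient (dc2 α γ) => lk D.out) (fun D hD => habs _ (Finset.mem_filter.1 hD).2)
    fun D hD D' hD' h => hnc _ _ (ConjClasses.mk_eq_mk_iff_isConj.1 h)
      (Finset.mem_filter.1 hD).2 (Finset.mem_filter.1 hD').2]
  congr 2
  rw [goldmanBracket, finsum_mem_eq_finite_toFinset_sum _ hP,
    ← Finset.sum_fiberwise_of_maps_to (t := Qf) (g := fun p => q p.2.2)
      fun p hp => Finset.mem_image_of_mem _ hp, Finset.sum_filter]
  refine Finset.sum_congr rfl fun D _ => ?_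
  have a2 : (hP.toFinset.filter fun p => q p.2.2 = D) = (hs D.out).1.toFinset := by
    ext p
    rw [Finset.mem_filter, hP.mem_toFinset, Finite.mem_toFinset]
    exact and_congr_right fun _ => by rw [← hq, hout, eq_comm]
  have a3 := (hs D.out).2
  rw [finsum_mem_eq_finite_toFinset_sum _ (hs D.out).1] at a3
  rw [a2, Finset.sum_congr rfl (g := fun p => Finsupp.single (cls D.out)
    ((SignType.sign (crossDet co c d p) : SignType) : ℤ)) fun p hp => by
      rw [hcls _ _ ((hs D.out).1.mem_toFinset.1 hp).2], ← Finsupp.single_finsetSum, a3]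
  split_ifs with h
  · rfl
  · rw [not_not.1 h, Finsupp.single_zero]

lemma encard_Ico_abs (m : ℤ) : (Ico (0 : ℤ) |m|).encard = (m.natAbs : ℕ∞) := by
  rw [← Finset.coe_Ico, encard_coe_eq_coe_finsetCard, Int.card_Ico, sub_zero, ← Int.natCast_natAbs,
    Int.toNat_natCast]

lemma encard_dc2 {link : G → ℤ} (hl : ∀ g h, dc β g h → link g = link h)
    (hzero : ∀ (g : G) (i j : ℤ), β ^ i * g * β ^ j = g → i + j = 0)
    (hfree : ∀ g, link g ≠ 0 → ∀ i j : ℤ, β ^ i * g * β ^ j = g → i = 0)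
    {m n : ℤ} (hm : m ≠ 0) (hn : n ≠ 0) :
    {D : Quotient (dc2 (β ^ m) (β ^ n)) | link D.out ≠ 0}.encard =
      ((m * n).natAbs : ℕ∞) * {D : Quotient (dc β) | link D.out ≠ 0}.encard := by
  have sub : ∀ g h, dc2 (β ^ m) (β ^ n) g h → dc β g h := by
    rintro g _ ⟨i, j, rfl⟩
    exact ⟨m * i, n * j, by rw [zpow_mul, zpow_mul]⟩
  let F : Quotient (dc β) × ℤ × ℤ → Quotient (dc2 (β ^ m) (β ^ n)) := fun x =>
    Quotient.mk _ (β ^ x.2.1 * x.1.out * β ^ x.2.2)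
  have inj : InjOn F ({D : Quotient (dc β) | link D.out ≠ 0} ×ˢ Ico 0 |m| ×ˢ Ico 0 |n|) := by
    rintro ⟨D, i, j⟩ ⟨h1, h2, h3⟩ ⟨D', i', j'⟩ ⟨-, h5, h6⟩ e
    obtain ⟨u, v, e⟩ := Quotient.exact e
    dsimp only at h1 h2 h3 h5 h6 e
    have e' : D'.out = β ^ (m * u + i - i') * D.out * β ^ (j + n * v - j') := by
      calc D'.out = β ^ (-i') * (β ^ i' * D'.out * β ^ j') * β ^ (-j') := by group
        _ = _ := by rw [e]; group
    obtain rfl : D = D' := Quotient.out_equiv_out.1 ⟨_, _, e'⟩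
    have g1 := hfree _ h1 _ _ e'.symm
    have g2 := hzero _ _ _ e'.symm
    have g3 : i' - i = 0 := Int.eq_zero_of_abs_lt_dvd ((abs_dvd m _).2 ⟨u, by linarith⟩)
      (abs_lt.2 ⟨by linarith [h2.2, h5.1], by linarith [h2.1, h5.2]⟩)
    have g4 : j' - j = 0 := Int.eq_zero_of_abs_lt_dvd ((abs_dvd n _).2 ⟨v, by linarith⟩)
      (abs_lt.2 ⟨by linarith [h3.2, h6.1], by linarith [h3.1, h6.2]⟩)
    rw [sub_eq_zero.1 g3, sub_eq_zero.1 g4]
  have im : {D : Quotient (dc2 (β ^ m) (β ^ n)) | link D.out ≠ 0} =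
      F '' ({D : Quotient (dc β) | link D.out ≠ 0} ×ˢ Ico 0 |m| ×ˢ Ico 0 |n|) := by
    ext D
    constructor
    · intro h
      have o : dc β (Quotient.mk (dc β) D.out).out D.out := Quotient.mk_out D.out
      obtain ⟨u, v, e⟩ := o
      refine ⟨(Quotient.mk _ D.out, u % m, v % n), ⟨?_, ⟨Int.emod_nonneg _ hm, Int.emod_lt_abs _ hm⟩,
        Int.emod_nonneg _ hn, Int.emod_lt_abs _ hn⟩, ?_⟩
      · exact (hl _ _ ⟨u, v, e⟩).trans_ne h
      · refine (Quotient.sound (s := dc2 (β ^ m) (β ^ n)) ⟨u / m, v / n, ?_⟩).trans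
          (Quotient.out_eq D)
        dsimp only
        rw [← zpow_mul, ← zpow_mul, ← mul_assoc, ← mul_assoc, ← zpow_add, mul_assoc _ (β ^ (v % n)),
          ← zpow_add, Int.mul_ediv_add_emod, Int.emod_add_mul_ediv]
        exact e
    · rintro ⟨⟨D, i, j⟩, ⟨h, -⟩, rfl⟩
      have o : dc2 (β ^ m) (β ^ n) (F (D, i, j)).out (β ^ i * D.out * β ^ j) := Quotient.mk_out _
      exact ((hl _ _ (sub _ _ o)).trans (hl _ _ ⟨i, j, rfl⟩).symm).trans_ne h
  rw [im, inj.encard_image, encard_prod, encard_prod, encard_Ico_abs, encard_Ico_abs,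
    Int.natAbs_mul, Nat.cast_mul, mul_comm]

theorem pow_of_link (hG : ∀ g : G, Conf co fun x => co (g • x)) (hM : Main co β) (link : G → ℤ)
    (hfin : ∀ (α γ : G) (c d : ℝ → X), IsLiftedLoop co α c → IsLiftedLoop co γ d →
      ((fun p => p.2.2) '' meetings G c d).Finite)
    (hsum : ∀ N : ℕ, 0 < N → ∀ c d, IsLiftedLoop co (β ^ N) c → IsLiftedLoop co (β ^ N)⁻¹ d → ∀ g,
      (∀ p ∈ fib (β ^ N) c d g, crossDet co c d p ≠ 0) → FibSum co (β ^ N) c d g (link g))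
    (hzero : ∀ (g : G) (i j : ℤ), β ^ i * g * β ^ j = g → i + j = 0)
    (hfree : ∀ g, link g ≠ 0 → ∀ i j : ℤ, β ^ i * g * β ^ j = g → i = 0)
    (habs : ∀ g, link g ≠ 0 → (link g).natAbs = 1)
    (hnc : ∀ m n : ℤ, m ≠ 0 → n ≠ 0 → m ≠ n → ∀ g h,
      IsConj (β ^ m * (g * β ^ n * g⁻¹)) (β ^ m * (h * β ^ n * h⁻¹)) → link g ≠ 0 → link h ≠ 0 →
        link g = link h)
    {m n : ℤ} (hm : m ≠ 0) (hn : n ≠ 0) (hmn : m ≠ n) : MainPow co β m n := by
  obtain ⟨⟨c₀, d₀, hc₀, hd₀, ht₀⟩, hM⟩ := hM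
  have hl : ∀ g h, dc β g h → link g = link h := fun g h e => by
    have hs := fun g => hsum 1 one_pos c₀ d₀ (by rwa [pow_one]) (by rwa [pow_one]) g
      fun p hp => ht₀ p hp.1
    rw [pow_one] at hs
    rw [← (hs g).2, ← (hs h).2, fib_congr e]
  have main : ∀ m n : ℤ, m ≠ 0 → n ≠ 0 → m ≠ n → ∀ c d, IsLiftedLoop co (β ^ m) c →
      IsLiftedLoop co (β ^ n) d → MeetTransversally G co c d → (meetings G c d).Finite ∧
        (numberOfTerms (goldmanBracket co (β ^ m) (β ^ n) c d) : ℕ∞) =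
          ((m * n).natAbs : ℕ∞) * {D : Quotient (dc β) | link D.out ≠ 0}.encard := by
    intro m n hm hn hmn c d hc hd ht
    obtain ⟨ε, h1, h2⟩ := fibSum2_pow hG hsum hzero hm hn hc hd ht
    have h0 : ε ≠ 0 := by rintro rfl; simp at h1
    have := count2 (hfin _ _ c d hc hd) h2
      (fun g h => by rw [Int.natAbs_mul, h1, habs g (right_ne_zero_of_mul h)])
      fun g h e a b => by
        rw [hnc m n hm hn hmn g h e (right_ne_zero_of_mul a) (right_ne_zero_of_mul b)]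
    simp only [ne_eq, mul_eq_zero, h0, false_or] at this
    rw [← encard_dc2 hl hzero hfree hm hn]
    exact this
  have hT : {D : Quotient (dc β) | link D.out ≠ 0}.encard = 2 * selfIntersection co β := by
    have := (main 1 (-1) one_ne_zero (by norm_num) (by norm_num) c₀ d₀ (by rwa [zpow_one])
      (by rwa [zpow_neg_one]) ht₀).2
    rw [zpow_one, zpow_neg_one, (hM c₀ d₀ hc₀ hd₀ ht₀).2] at this
    simpa using this.symm
  refine ⟨⟨_, _, hc₀.scale hm, by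
    have := hd₀.scale (neg_ne_zero.2 hn)
    rwa [inv_zpow', neg_neg] at this, fun p hp => ?_⟩, fun c d hc hd ht => ?_⟩
  · have h1 := dt_ne hG hc₀ hd₀ (g := p.2.2) (fun q hq => ht₀ q hq.1)
      (p := (m * p.1, (-n : ℤ) * p.2.1)) hp.2.2
    have h2 := dt_scale (fun u => co (c₀ u)) (fun u => co (p.2.2 • d₀ u)) m (-n : ℤ) (p.1, p.2.1)
    exact h2.trans_ne (mul_ne_zero (mul_ne_zero (Int.cast_ne_zero.2 hm)
      (Int.cast_ne_zero.2 (neg_ne_zero.2 hn))) h1)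
  · obtain ⟨h1, h2⟩ := main m n hm hn hmn c d hc hd ht
    exact ⟨h1, by rw [h2, hT, mul_left_comm, mul_assoc]⟩

end Pool.Agent.MP_46f5ab_gt
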