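import Pool.Agent.Mg.F46f5abp.Gd57f1d

/-! Compact convex regions attached to a pair of cancelling terms, for unequal lengths. -/

namespace Pool.Agent.MP_46f5ab_gt

open UpperHalfPlane MatrixGroups

/-- Two factorizations of one matrix with crossings of opposite signs. -/
structure Can (s : ℝ) (A B A' B' : SL(2, ℝ)) : Prop where
  tA : 2 < tr A
  tB : 2 < tr B
  tA' : tr A' = tr A
  tB' : tr B' = tr B
  eq : A * B⁻¹ = A' * B'⁻¹
  cr : Cross (-s) A B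
  cr' : Cross s A' B'

lemma Cross.tr_gt' {s : ℝ} {A B : SL(2, ℝ)} (h : Cross s A B) (hA : 2 < tr A) (hB : 2 < tr B) :
    2 < tr (A * B⁻¹) := by
  have h1 := h.1
  have e : comDet A B =
      4 + tr A * tr B * tr (A * B⁻¹) - tr A ^ 2 - tr B ^ 2 - tr (A * B⁻¹) ^ 2 := by
    have dA := det_eq A
    have dB := det_eq B
    unfold comDet tr
    simp only [mul_entry, inv00, inv01, inv10, inv11]
    linear_combination (4 * (B 0 0 * B 1 1 - B 0 1 * B 1 0) - (B 0 0 + B 1 1) ^ 2) * dA +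
      (4 - (A 0 0 + A 1 1) ^ 2) * dB
  rw [e] at h1
  generalize tr A = x at *
  generalize tr B = y at *
  generalize tr (A * B⁻¹) = z at *
  by_contra h2
  have h3 : 0 ≤ 2 - z := by linarith
  have h4 : 4 < x * y := by nlinarith
  have h5 : 0 ≤ (2 - z) * (x * y - z - 2) := mul_nonneg h3 (by linarith)
  nlinarith [sq_nonneg (x - y)]

lemma Cross.inv {s : ℝ} {A B : SL(2, ℝ)} (h : Cross s A B) : Cross s A⁻¹ B⁻¹ := by
  obtain ⟨h1, h2⟩ := h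
  have e1 : comDet A⁻¹ B⁻¹ = comDet A B := by
    simp only [comDet, mul_entry, inv00, inv01, inv10, inv11]
    ring
  have e2 : com10 A⁻¹ B⁻¹ = com10 A B := by
    simp only [com10, mul_entry, inv00, inv10, inv11]
    ring
  exact ⟨e1 ▸ h1, e2 ▸ h2⟩

variable {s : ℝ} {A B A' B' : SL(2, ℝ)}

lemma Can.conj (h : Can s A B A' B') (K : SL(2, ℝ)) :
    Can s (K * A * K⁻¹) (K * B * K⁻¹) (K * A' * K⁻¹) (K * B' * K⁻¹) := by
  refine ⟨by rw [tr_conj]; exact h.tA, by rw [tr_conj]; exact h.tB,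
    by rw [tr_conj, tr_conj, h.tA'], by rw [tr_conj, tr_conj, h.tB'], ?_, h.cr.conj K, h.cr'.conj K⟩
  calc _ = K * (A * B⁻¹) * K⁻¹ := by group
    _ = _ := by rw [h.eq]; group

lemma Can.shift (h : Can s A B A' B') (j : ℤ) :
    Can s A B ((A * B⁻¹) ^ j * A' * ((A * B⁻¹) ^ j)⁻¹) ((A * B⁻¹) ^ j * B' * ((A * B⁻¹) ^ j)⁻¹) := by
  refine ⟨h.tA, h.tB, by rw [tr_conj, h.tA'], by rw [tr_conj, h.tB'], ?_, h.cr, h.cr'.conj _⟩
  calc _ = (A * B⁻¹) ^ j * (A * B⁻¹) * ((A * B⁻¹) ^ j)⁻¹ := by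
        generalize A * B⁻¹ = C
        group
    _ = (A * B⁻¹) ^ j * (A' * B'⁻¹) * ((A * B⁻¹) ^ j)⁻¹ := by rw [← h.eq]
    _ = _ := by
      generalize (A * B⁻¹) ^ j = P
      group

lemma Can.swap₁ (h : Can s A B A' B') : Can (-s) A' B' A B :=
  ⟨h.tA' ▸ h.tA, h.tB' ▸ h.tB, h.tA'.symm, h.tB'.symm, h.eq.symm, by rw [neg_neg]; exact h.cr',
    h.cr⟩

lemma Can.swap₂ (h : Can s A B A' B') : Can (-s) B A B' A' := by
  refine ⟨h.tB, h.tA, h.tB', h.tA', ?_, h.cr.symm, h.cr'.symm⟩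
  calc _ = (A * B⁻¹)⁻¹ := by group
    _ = _ := by rw [h.eq]; group

lemma Can.rev (h : Can s A B A' B') : Can s A⁻¹ (A * B * A⁻¹)⁻¹ A'⁻¹ (A' * B' * A'⁻¹)⁻¹ := by
  refine ⟨by rw [tr_inv]; exact h.tA, by rw [tr_inv, tr_conj]; exact h.tB,
    by rw [tr_inv, tr_inv, h.tA'], by rw [tr_inv, tr_inv, tr_conj, tr_conj, h.tB'], ?_, ?_, ?_⟩
  · calc _ = (A * B⁻¹)⁻¹ := by group
      _ = _ := by rw [h.eq]; group
  · have := (h.cr.conj A).inv
    rwa [mul_inv_cancel_right] at this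
  · have := (h.cr'.conj A').inv
    rwa [mul_inv_cancel_right] at this

lemma entries_of_cross' {l : ℝ} (hl : 1 < l) {B : SL(2, ℝ)} {s : ℝ} (h2 : 2 < tr B)
    (hc : Cross (-s) (diag l (by linarith) * B) B) :
    0 < B 0 0 ∧ 0 < B 1 1 ∧ 0 < s * B 0 1 ∧ 0 < s * B 1 0 := by
  have hl0 : 0 < l := by linarith
  set D := diag l hl0 with hD
  have d00 : D 0 0 = l := rfl
  have d01 : D 0 1 = 0 := rfl
  have d10 : D 1 0 = 0 := rfl
  have d11 : D 1 1 = l⁻¹ := rfl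
  have hdet := det_eq B
  have e1 : com10 (D * B) B = -((l - l⁻¹) * (B 0 0 * B 1 0)) := by
    unfold com10
    simp only [mul_entry, d00, d01, d10, d11]
    ring
  have e2 : comDet (D * B) B = (l - l⁻¹) ^ 2 * (B 0 1 * B 1 0) := by
    unfold comDet
    simp only [mul_entry, d00, d01, d10, d11]
    linear_combination ((l - l⁻¹) ^ 2 * (B 0 1 * B 1 0)) * hdet
  have hll := sub_inv_pos hl
  have a1 : 0 < B 0 1 * B 1 0 := by
    have := hc.1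
    rw [e2] at this
    exact (mul_pos_iff_of_pos_left (by positivity)).1 this
  have a2 : 0 < B 0 0 * B 1 1 := by linarith
  unfold tr at h2
  have a3 : 0 < B 0 0 := by
    by_contra h
    have h3 : 0 < B 1 1 := by linarith
    nlinarith
  have a4 : 0 < B 1 1 := (mul_pos_iff_of_pos_left a3).1 a2
  have a5 : 0 < s * B 1 0 := by
    have := hc.2
    rw [e1] at this
    have h3 : 0 < ((l - l⁻¹) * B 0 0) * (s * B 1 0) := by linarith
    exact (mul_pos_iff_of_pos_left (by positivity)).1 h3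
  refine ⟨a3, a4, ?_, a5⟩
  have h3 : 0 < (s * B 1 0) * (B 0 1 * B 1 0) := mul_pos a5 a1
  have h4 : B 1 0 ≠ 0 := fun h => by simp [h] at a1
  have h5 : 0 < B 1 0 ^ 2 * (s * B 0 1) := by linarith
  exact (mul_pos_iff_of_pos_left (by positivity)).1 h5

lemma Can.normal (h : Can s A B A' B') : ∃ (K E E' : SL(2, ℝ)) (l : ℝ) (hl : 1 < l) (r : ℝ),
    0 < r ∧ 0 < E 0 0 ∧ 0 < E 1 1 ∧ 0 < s * E 0 1 ∧ 0 < s * E 1 0 ∧
    K * (A * B⁻¹) * K⁻¹ = diag l (by linarith) ∧ K * B * K⁻¹ = E ∧ K * B' * K⁻¹ = E' ∧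
    E' 0 0 = E 0 0 ∧ E' 1 1 = E 1 1 ∧ E' 0 1 = -(r * E 0 1) ∧ E' 1 0 = -(E 1 0 / r) := by
  obtain ⟨K, l, hl, hK⟩ := exists_diag _ (h.cr.tr_gt' h.tA h.tB)
  have hl0 : 0 < l := by linarith
  set D := diag l hl0 with hD
  obtain ⟨E, hE⟩ : ∃ E, K * B * K⁻¹ = E := ⟨_, rfl⟩
  obtain ⟨E', hE'⟩ : ∃ E', K * B' * K⁻¹ = E' := ⟨_, rfl⟩
  have hA1 : K * A * K⁻¹ = D * E := by rw [← hK, ← hE]; group
  have hA2 : K * A' * K⁻¹ = D * E' := by rw [← hK, ← hE', h.eq]; group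
  have hc := h.conj K
  rw [hA1, hA2, hE, hE'] at hc
  obtain ⟨a1, a2, a3, a4⟩ := entries_of_cross' hl hc.tB hc.cr
  obtain ⟨b1, b2, b3, b4⟩ := entries_of_cross' (s := -s) hl (hc.tB' ▸ hc.tB)
    (by rw [neg_neg]; exact hc.cr')
  have t1 := hc.tA'
  have t2 := hc.tB'
  simp only [tr, mul_entry, hD, diag, mkSL00, mkSL01, mkSL10, mkSL11] at t1 t2
  have hll := sub_inv_pos hl
  have c1 : E' 0 0 = E 0 0 :=
    mul_left_cancel₀ hll.ne' (by linear_combination t1 - l⁻¹ * t2)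
  have c2 : E' 1 1 = E 1 1 := by linarith
  have hb : E 0 1 ≠ 0 := fun h => by simp [h] at a3
  have hb' : E' 0 1 ≠ 0 := fun h => by simp [h] at b3
  have d1 := det_eq E
  have d2 := det_eq E'
  rw [c1, c2] at d2
  refine ⟨K, E, E', l, hl, -(E' 0 1 / E 0 1), ?_, a1, a2, a3, a4, hK, hE, hE', c1, c2, ?_, ?_⟩
  · have : -(E' 0 1 / E 0 1) = (-s * E' 0 1) / (s * E 0 1) := by
      have : s ≠ 0 := fun h => by simp [h] at a3
      field_simp
    rw [this]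
    positivity
  · field_simp
  · field_simp
    linear_combination d1 - d2

lemma isCompact_of_bdry {Φ : ℝ × ℝ → Prop} (hc : IsClosed {p | Φ p}) {u v w : ℝ} (hw : 0 < w)
    (hb : ∀ x N, Φ (x, N) → 0 ≤ u + v * x - w * N) (h0 : ∀ x, ¬ Φ (x, x ^ 2)) (K : SL(2, ℝ)) :
    IsCompact {z : ℍ | Φ ((K • z).re, nsq (K • z))} := by
  have h1 : IsCompact {ζ : ℂ | 0 ≤ ζ.im ∧ Φ (ζ.re, Complex.normSq ζ)} := by
    refine Metric.isCompact_of_isClosed_isBounded ?_ ?_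
    · refine (isClosed_le continuous_const Complex.continuous_im).inter
        (hc.preimage (f := fun ζ : ℂ => (ζ.re, Complex.normSq ζ)) ?_)
      exact Complex.continuous_re.prodMk Complex.continuous_normSq
    · refine (Metric.isBounded_closedBall (x := (0 : ℂ)) (r := 1 + (|u| + |v|) / w)).subset ?_
      rintro ζ ⟨-, h2⟩
      have h3 := hb _ _ h2
      rw [Complex.normSq_eq_norm_sq] at h3
      rw [mem_closedBall_zero_iff]
      have h4 : v * ζ.re ≤ |v| * ‖ζ‖ := by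
        refine (le_abs_self _).trans ?_
        rw [abs_mul]
        exact mul_le_mul_of_nonneg_left (Complex.abs_re_le_norm ζ) (abs_nonneg v)
      by_contra h5
      have h6 : 0 ≤ (|u| + |v|) / w := by positivity
      have h7 : (|u| + |v|) / w < ‖ζ‖ := by linarith
      rw [div_lt_iff₀ hw] at h7
      have h8 : 1 < ‖ζ‖ := by linarith
      have h9 : |u| * 1 ≤ |u| * ‖ζ‖ := mul_le_mul_of_nonneg_left h8.le (abs_nonneg u)
      have h10 := mul_lt_mul_of_pos_right h7 (by linarith : 0 < ‖ζ‖)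
      nlinarith [le_abs_self u]
  have h2 : {ζ : ℂ | 0 ≤ ζ.im ∧ Φ (ζ.re, Complex.normSq ζ)} ⊆ Set.range ((↑) : ℍ → ℂ) := by
    rintro ζ ⟨a1, a2⟩
    refine ⟨⟨ζ, a1.lt_of_ne fun a3 => h0 ζ.re ?_⟩, rfl⟩
    rwa [Complex.normSq_apply, ← a3, mul_zero, add_zero, ← sq] at a2
  have h3 := (Homeomorph.smul K).isCompact_preimage.2
    ((isEmbedding_coe.isInducing.isCompact_preimage_iff h2).2 h1)
  refine h3.of_isClosed_subset ?_ fun z hz => ?_
  · refine hc.preimage (f := fun z : ℍ => ((K • z).re, nsq (K • z))) ?_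
    have : Continuous fun z : ℍ => K • z := (Homeomorph.smul K).continuous
    unfold nsq
    fun_prop
  · exact ⟨(K • z).im_pos.le, by simpa only [Homeomorph.smul_apply, coe_re, ← nsq_eq, Set.mem_ofPred_eq] using hz⟩

lemma nn_div {ε F P : ℝ} (hP : 0 < P) : 0 ≤ ε * (F / P) ↔ 0 ≤ ε * F := by
  rw [← mul_div_assoc, le_div_iff₀ hP, zero_mul]

lemma nn_of_eq {ε a F : ℝ} (P : ℝ) (hP : 0 < P) (h : a = F / P) : 0 ≤ ε * a ↔ 0 ≤ ε * F := by
  rw [h, nn_div hP]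

lemma Can.forms (h : Can s A B A' B') : ∃ (K : SL(2, ℝ)) (l p q b c r : ℝ), 1 < l ∧ 0 < p ∧ 0 < q ∧
    0 < r ∧ 0 < s * b ∧ 0 < s * c ∧ p * q - b * c = 1 ∧ (tr B ≤ tr A → q ≤ l * p) ∧
    ∀ (z : ℍ) (ε : ℝ),
      (0 ≤ ε * sig A z ↔ 0 ≤ ε * (l ^ 2 * b + (l ^ 2 * p - q) * (K • z).re - c * nsq (K • z))) ∧
      (0 ≤ ε * sig B z ↔ 0 ≤ ε * (b + (p - q) * (K • z).re - c * nsq (K • z))) ∧
      (0 ≤ ε * sig A' z ↔
        0 ≤ ε * (-(r ^ 2 * l ^ 2 * b) + r * (l ^ 2 * p - q) * (K • z).re + c * nsq (K • z))) ∧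
      (0 ≤ ε * sig B' z ↔ 0 ≤ ε * (-(r ^ 2 * b) + r * (p - q) * (K • z).re + c * nsq (K • z))) ∧
      (0 ≤ ε * sig (A' * B' * A'⁻¹) z ↔
        0 ≤ ε * (-(r ^ 2 * l ^ 4 * b) + r * l ^ 2 * (p - q) * (K • z).re + c * nsq (K • z))) ∧
      (0 ≤ ε * sig (A * B⁻¹) z ↔ 0 ≤ ε * (K • z).re) := by
  obtain ⟨K, E, E', l, hl, r, hr, a1, a2, a3, a4, hK, hE, hE', c1, c2, c3, c4⟩ := h.normal
  have hl0 : 0 < l := by linarith
  set D := diag l hl0 with hD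
  have d00 : D 0 0 = l := rfl
  have d01 : D 0 1 = 0 := rfl
  have d10 : D 1 0 = 0 := rfl
  have d11 : D 1 1 = l⁻¹ := rfl
  have hA1 : K * A * K⁻¹ = D * E := by rw [← hK, ← hE]; group
  have hA2 : K * A' * K⁻¹ = D * E' := by rw [← hK, ← hE', h.eq]; group
  have hA3 : K * (A' * B' * A'⁻¹) * K⁻¹ = D * E' * D⁻¹ := by rw [← hK, ← hE', h.eq]; group
  refine ⟨K, l, E 0 0, E 1 1, E 0 1, E 1 0, r, hl, a1, a2, hr, a3, a4, det_eq E, fun ht => ?_,
    fun z ε => ?_⟩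
  · rw [← tr_conj K A, ← tr_conj K B, hA1, hE] at ht
    simp only [tr, mul_entry, d00, d01, d10, d11] at ht
    have h1 : 0 ≤ (l - 1) * (l * E 0 0 - E 1 1) := by
      have h2 := mul_le_mul_of_nonneg_left ht hl0.le
      have h3 : l * l⁻¹ = 1 := mul_inv_cancel₀ hl0.ne'
      linear_combination h2 + E 1 1 * h3
    have := (mul_nonneg_iff_of_pos_left (by linarith)).1 h1
    linarith
  have hy := (K • z).im_pos
  rw [← sig_conj K A, ← sig_conj K B, ← sig_conj K A', ← sig_conj K B',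
    ← sig_conj K (A' * B' * A'⁻¹), ← sig_conj K (A * B⁻¹), hA1, hA2, hA3, hE, hE', hK]
  generalize K • z = w at *
  refine ⟨?_, ?_, ?_, ?_, ?_, ?_⟩
  · refine nn_of_eq (l * w.im) (by positivity) ?_
    simp only [sig, mul_entry, d00, d01, d10, d11]
    field_simp
    ring
  · exact nn_div hy
  · refine nn_of_eq (r * l * w.im) (by positivity) ?_
    simp only [sig, mul_entry, d00, d01, d10, d11, c1, c2, c3, c4]
    field_simp
    ring
  · refine nn_of_eq (r * w.im) (by positivity) ?_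
    simp only [sig, c1, c2, c3, c4]
    field_simp
    ring
  · refine nn_of_eq (r * l ^ 2 * w.im) (by positivity) ?_
    simp only [sig, mul_entry, inv00, inv01, inv10, inv11, d00, d01, d10, d11, c1, c2, c3, c4]
    field_simp
    ring
  · rw [sig_diag, nn_div hy, mul_left_comm]
    exact mul_nonneg_iff_of_pos_left (sub_inv_pos hl)

lemma pair {s l p q b c x : ℝ} (hl : 1 < l) (hp : 0 < p) (hb : 0 < s * b) (hc : 0 < s * c)
    (hd : p * q - b * c = 1) (hx : s * x ≤ 0)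
    (h1 : 0 ≤ s * (l ^ 2 * b + (l ^ 2 * p - q) * x - c * x ^ 2))
    (h2 : 0 ≤ -s * (b + (p - q) * x - c * x ^ 2)) : False := by
  have hl2 : 0 < l ^ 2 - 1 := by nlinarith
  have h3 : 0 ≤ s * (b + p * x) :=
    (mul_nonneg_iff_of_pos_left hl2).1 (by linarith)
  have hs : s ≠ 0 := fun h => by simp [h] at hb
  have hs2 : 0 < s ^ 2 := by positivity
  have h4 : 0 < c * x + q := by
    have h5 : 0 ≤ (s * c) * (s * (b + p * x)) := mul_nonneg hc.le h3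
    have h6 : 0 < (s ^ 2 * p) * (c * x + q) := by
      have : (s ^ 2 * p) * (c * x + q) = (s * c) * (s * (b + p * x)) + s ^ 2 := by
        linear_combination s ^ 2 * hd
      linarith
    exact (mul_pos_iff_of_pos_left (by positivity)).1 h6
  have h5 : 0 ≤ -(s * x) * (c * x + q) := mul_nonneg (by linarith) h4.le
  have h6 : -(s * x) * (c * x + q) = 0 := by linarith
  have h7 : s * x = 0 := neg_eq_zero.1 ((mul_eq_zero.1 h6).resolve_right h4.ne')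
  have h8 : s * (b + p * x) = s * b + p * (s * x) := by ring
  rw [h7] at h8
  linarith

lemma Can.k1 (h : Can s A B A' B') :
    IsCompact {z : ℍ | 0 ≤ s * sig A z ∧ 0 ≤ -s * sig B z ∧ 0 ≤ -s * sig A' z ∧ 0 ≤ s * sig B' z} := by
  obtain ⟨K, l, p, q, b, c, r, hl, hp, hq, hr, hb, hc, hd, -, hf⟩ := h.forms
  simp only [fun z => (hf z s).1, fun z => (hf z (-s)).2.1, fun z => (hf z (-s)).2.2.1,
    fun z => (hf z s).2.2.2.1]
  refine isCompact_of_bdry (Φ := fun w => 0 ≤ s * (l ^ 2 * b + (l ^ 2 * p - q) * w.1 - c * w.2) ∧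
    0 ≤ -s * (b + (p - q) * w.1 - c * w.2) ∧
    0 ≤ -s * (-(r ^ 2 * l ^ 2 * b) + r * (l ^ 2 * p - q) * w.1 + c * w.2) ∧
    0 ≤ s * (-(r ^ 2 * b) + r * (p - q) * w.1 + c * w.2)) ?_ (u := s * (l ^ 2 * b))
    (v := s * (l ^ 2 * p - q)) hc (fun x N h => by linarith [h.1]) ?_ K
  · simp only [Set.ofPred_and]
    refine IsClosed.inter ?_ (IsClosed.inter ?_ (IsClosed.inter ?_ ?_)) <;>
      exact isClosed_le continuous_const (by fun_prop)
  · rintro x ⟨h1, h2, h3, h4⟩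
    rcases le_total (s * x) 0 with hx | hx
    · exact pair hl hp hb hc hd hx h1 h2
    · have hr2 : 0 < r ^ 2 := by positivity
      refine pair (s := s) (x := -(x / r)) hl hp hb hc hd ?_ ?_ ?_
      · rw [mul_neg, ← mul_div_assoc, neg_nonpos]
        positivity
      · refine (mul_nonneg_iff_of_pos_left hr2).1 (h3.trans_eq ?_)
        field_simp
        ring
      · refine (mul_nonneg_iff_of_pos_left hr2).1 (h4.trans_eq ?_)
        field_simp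
        ring

lemma Can.k2 (h : Can s A B A' B') :
    IsCompact {z : ℍ | 0 ≤ -s * sig A z ∧ 0 ≤ s * sig (A * B * A⁻¹) z ∧ 0 ≤ s * sig A' z ∧
      0 ≤ -s * sig (A' * B' * A'⁻¹) z} := by
  have := h.rev.k1
  simpa only [sig_inv, mul_neg, neg_mul, neg_neg] using this

lemma Can.sweep (h : Can s A B A' B') (z : ℍ) : ∃ j : ℤ,
    0 ≤ s * sig ((A * B⁻¹) ^ j * B' * ((A * B⁻¹) ^ j)⁻¹) z ∧
      0 ≤ -s * sig ((A * B⁻¹) ^ (j + 1) * B' * ((A * B⁻¹) ^ (j + 1))⁻¹) z := by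
  obtain ⟨K, E, E', l, hl, r, hr, -, -, a3, a4, hK, -, hE', -, -, c3, c4⟩ := h.normal
  have hl0 : 0 < l := by linarith
  set w := K • z with hw
  have hy := w.im_pos
  have key : ∀ (j : ℤ) (ε : ℝ), 0 ≤ ε * sig ((A * B⁻¹) ^ j * B' * ((A * B⁻¹) ^ j)⁻¹) z ↔
      0 ≤ ε * (((l ^ 2) ^ j) ^ 2 * E' 0 1 + (l ^ 2) ^ j * ((E' 0 0 - E' 1 1) * w.re) -
        E' 1 0 * nsq w) := by
    intro j ε
    have hm : 0 < l ^ j := zpow_pos hl0 j
    have e1 : K * ((A * B⁻¹) ^ j * B' * ((A * B⁻¹) ^ j)⁻¹) * K⁻¹ =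
        diag (l ^ j) hm * E' * (diag (l ^ j) hm)⁻¹ := by
      rw [← diag_zpow hl0, ← hK, conj_zpow, ← hE']
      generalize (A * B⁻¹) ^ j = P
      group
    have e2 : (l ^ 2) ^ j = (l ^ j) ^ 2 := by
      rw [← zpow_natCast, ← zpow_natCast, ← zpow_mul, ← zpow_mul, mul_comm]
    rw [← sig_conj K, e1, ← hw, e2]
    refine nn_of_eq ((l ^ j) ^ 2 * w.im) (by positivity) ?_
    simp only [sig, mul_entry, inv00, inv01, inv10, inv11, diag, mkSL00, mkSL01, mkSL10, mkSL11]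
    field_simp
    ring
  simp only [key]
  obtain ⟨β, hβ⟩ : ∃ β, β = -s * E' 0 1 := ⟨_, rfl⟩
  obtain ⟨γ, hγ⟩ : ∃ γ, γ = -s * (E' 1 0 * nsq w) := ⟨_, rfl⟩
  obtain ⟨δ, hδ⟩ : ∃ δ, δ = s * ((E' 0 0 - E' 1 1) * w.re) := ⟨_, rfl⟩
  have hβ0 : 0 < β := by
    rw [hβ, c3, neg_mul_neg, mul_left_comm]
    positivity
  have hγ0 : 0 < γ := by
    have := nsq_pos w
    rw [hγ, c4, neg_mul, neg_mul, mul_neg, neg_neg, ← mul_assoc, ← mul_div_assoc]
    positivity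
  obtain ⟨u, v, hu, hv, huv⟩ : ∃ u v : ℝ, 0 < u ∧ 0 < v ∧
      ∀ ρ, -β * ρ ^ 2 + δ * ρ + γ = β * ((u - ρ) * (ρ + v)) := by
    have h1 : 0 < δ ^ 2 + 4 * β * γ := by positivity
    have h2 := Real.sq_sqrt h1.le
    have h3 : |δ| < Real.sqrt (δ ^ 2 + 4 * β * γ) :=
      Real.lt_sqrt_of_sq_lt (by rw [sq_abs]; linarith [mul_pos hβ0 hγ0])
    generalize Real.sqrt (δ ^ 2 + 4 * β * γ) = R at h2 h3
    refine ⟨(R + δ) / (2 * β), (R - δ) / (2 * β), div_pos (by linarith [neg_abs_le δ]) (by positivity),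
      div_pos (by linarith [le_abs_self δ]) (by positivity), fun ρ => ?_⟩
    field_simp
    linear_combination -h2
  obtain ⟨j, h1, h2⟩ := exists_mem_Ico_zpow hu (show 1 < l ^ 2 by nlinarith)
  have p1 : 0 < (l ^ 2) ^ j := by positivity
  have p2 : 0 < (l ^ 2) ^ (j + 1) := by positivity
  refine ⟨j, ?_, ?_⟩
  · have h3 := huv ((l ^ 2) ^ j)
    have h4 : 0 ≤ β * ((u - (l ^ 2) ^ j) * ((l ^ 2) ^ j + v)) :=
      mul_nonneg hβ0.le (mul_nonneg (by linarith) (by positivity))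
    rw [← h3, hβ, hγ, hδ] at h4
    linarith
  · have h3 := huv ((l ^ 2) ^ (j + 1))
    have h4 : 0 ≤ β * (((l ^ 2) ^ (j + 1) - u) * ((l ^ 2) ^ (j + 1) + v)) :=
      mul_nonneg hβ0.le (mul_nonneg (by linarith) (by positivity))
    rw [hβ, hγ, hδ] at h3
    rw [hβ] at h4
    linarith

/-- The point lies in a compact region cut out by a side of the axis of `A` and sides of the axes of
three matrices with the property `S`, up to the side of `A`. -/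
def Enc (A : SL(2, ℝ)) (S : SL(2, ℝ) → Prop) (z : ℍ) : Prop :=
  ∃ (ε₀ ε₁ ε₂ ε₃ : ℝ) (M₁ M₂ M₃ : SL(2, ℝ)), S M₁ ∧ S M₂ ∧ S M₃ ∧
    IsCompact {w : ℍ | 0 ≤ ε₀ * sig A w ∧ 0 ≤ ε₁ * sig M₁ w ∧ 0 ≤ ε₂ * sig M₂ w ∧
      0 ≤ ε₃ * sig M₃ w} ∧ 0 ≤ ε₁ * sig M₁ z ∧ 0 ≤ ε₂ * sig M₂ z ∧ 0 ≤ ε₃ * sig M₃ z

lemma Enc.of_inv {S : SL(2, ℝ) → Prop} {z : ℍ} (h : Enc A⁻¹ (fun M => S M⁻¹) z) : Enc A S z := by
  obtain ⟨ε₀, ε₁, ε₂, ε₃, M₁, M₂, M₃, h1, h2, h3, h4, h5⟩ := h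
  refine ⟨-ε₀, -ε₁, -ε₂, -ε₃, _, _, _, h1, h2, h3, ?_, ?_⟩
  · simpa only [sig_inv, mul_neg, neg_mul, neg_neg] using h4
  · simpa only [sig_inv, mul_neg, neg_mul, neg_neg] using h5

lemma Can.succ (h : Can s A B A' B') (j : ℤ) :
    (A * B⁻¹) ^ j * A' * ((A * B⁻¹) ^ j)⁻¹ * ((A * B⁻¹) ^ j * B' * ((A * B⁻¹) ^ j)⁻¹) *
      ((A * B⁻¹) ^ j * A' * ((A * B⁻¹) ^ j)⁻¹)⁻¹ =
    (A * B⁻¹) ^ (j + 1) * B' * ((A * B⁻¹) ^ (j + 1))⁻¹ := by
  rw [zpow_add_one]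
  generalize (A * B⁻¹) ^ j = P
  rw [h.eq]
  group

theorem Can.enc_full (h : Can s A B A' B') {S : SL(2, ℝ) → Prop} (s1 : S B) (s2 : S (A * B * A⁻¹))
    (s3 : ∀ j : ℤ, S ((A * B⁻¹) ^ j * A' * ((A * B⁻¹) ^ j)⁻¹))
    (s4 : ∀ j : ℤ, S ((A * B⁻¹) ^ j * B' * ((A * B⁻¹) ^ j)⁻¹)) {z : ℍ}
    (z1 : 0 ≤ -s * sig B z) (z2 : 0 ≤ s * sig (A * B * A⁻¹) z) : Enc A S z := by
  obtain ⟨j, h1, h2⟩ := h.sweep z
  rcases le_total 0 (s * sig ((A * B⁻¹) ^ j * A' * ((A * B⁻¹) ^ j)⁻¹) z) with h3 | h3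
  · have := (h.shift j).k2
    rw [h.succ] at this
    exact ⟨_, _, _, _, _, _, _, s2, s3 j, s4 (j + 1), this, z2, h3, h2⟩
  · exact ⟨_, _, _, _, _, _, _, s1, s3 j, s4 j, (h.shift j).k1, z1, by linarith, h1⟩

lemma Can.halfB (h : Can s A B A' B') (ht : tr B ≤ tr A) {M : ℍ} (m1 : sig A M = 0)
    (m2 : sig (A * B⁻¹) M = 0) (m3 : 0 ≤ s * sig A' M) (m4 : 0 ≤ -s * sig (A' * B' * A'⁻¹) M)
    {S : SL(2, ℝ) → Prop} (s1 : S B) (s2 : S (A * B * A⁻¹)) (s3 : S A') (s4 : S B')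
    (s5 : S (A' * B' * A'⁻¹)) {z : ℍ} (z0 : sig A z = 0) (z1 : 0 ≤ -s * sig B z)
    (z2 : 0 ≤ s * sig (A * B * A⁻¹) z) (z3 : 0 ≤ -s * sig (A * B⁻¹) z) : Enc A S z := by
  obtain ⟨K, l, p, q, b, c, r, hl, hp, hq, hr, hb, hc, hd, ht', hf⟩ := h.forms
  have hq' := ht' ht
  have hl0 : 0 < l := by linarith
  have hl2 : 0 < l ^ 2 - 1 := by nlinarith
  have onA : ∀ w, sig A w = 0 → c * nsq (K • w) = l ^ 2 * b + (l ^ 2 * p - q) * (K • w).re := by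
    intro w hw
    have h1 := (hf w 1).1.1 (by rw [hw, mul_zero])
    have h2 := (hf w (-1)).1.1 (by rw [hw, mul_zero])
    linarith
  have hM : (K • M).re = 0 := by
    have h1 := (hf M 1).2.2.2.2.2.1 (by rw [m2, mul_zero])
    have h2 := (hf M (-1)).2.2.2.2.2.1 (by rw [m2, mul_zero])
    linarith
  have hlb : 0 < l ^ 2 * (s * b) := by positivity
  have r1 : r ≤ 1 := by
    have h1 := (hf M s).2.2.1.1 m3
    rw [onA M m1, hM] at h1
    have h2 : 0 ≤ 1 - r ^ 2 := (mul_nonneg_iff_of_pos_left hlb).1 (by linarith)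
    exact (pow_le_one_iff_of_nonneg hr.le two_ne_zero).1 (by linarith)
  have r2 : 1 ≤ r * l := by
    have h1 := (hf M (-s)).2.2.2.2.1.1 m4
    rw [onA M m1, hM] at h1
    have h2 : 0 ≤ (r * l) ^ 2 - 1 := (mul_nonneg_iff_of_pos_left hlb).1 (by linarith)
    exact (one_le_pow_iff_of_nonneg (by positivity) two_ne_zero).1 (by linarith)
  obtain ⟨ξ, hξ⟩ : ∃ ξ, ξ = -s * (K • z).re := ⟨_, rfl⟩
  have x1 : 0 ≤ ξ := hξ ▸ (hf z (-s)).2.2.2.2.2.1 z3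
  have x2 : p * ξ ≤ s * b := by
    have h1 := (hf z (-s)).2.1.1 z1
    rw [onA z z0] at h1
    have h2 : 0 ≤ s * b - p * ξ := (mul_nonneg_iff_of_pos_left hl2).1 (by rw [hξ]; linarith)
    linarith
  rcases le_total 0 (s * sig A' z) with h3 | h3
  · refine ⟨_, _, _, _, _, _, _, s2, s3, s5, h.k2, z2, h3, (hf z (-s)).2.2.2.2.1.2 ?_⟩
    rw [onA z z0]
    have a1 : 0 ≤ ξ * ((1 + r * l ^ 2) * (l * p - q)) :=
      mul_nonneg x1 (mul_nonneg (by positivity) (by linarith))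
    have a2 : 0 ≤ l * (l - 1) * (r * l - 1) * (s * b - p * ξ) :=
      mul_nonneg (mul_nonneg (mul_nonneg hl0.le (by linarith)) (by linarith)) (by linarith)
    have a3 : 0 ≤ (r * l - 1) * (l * (l * (r * l) + 1) * (s * b)) :=
      mul_nonneg (by linarith) (by positivity)
    rw [hξ] at a1 a2
    linarith
  rcases le_total (r * p) q with h4 | h4
  · refine ⟨_, _, _, _, _, _, _, s1, s3, s4, h.k1, z1, by linarith, (hf z s).2.2.2.1.2 ?_⟩
    rw [onA z z0]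
    have a1 : 0 ≤ ξ * ((1 + r) * (q - r * p)) :=
      mul_nonneg x1 (mul_nonneg (by positivity) (by linarith))
    have a2 : 0 ≤ (l ^ 2 - r ^ 2) * (s * b - p * ξ) := mul_nonneg (by nlinarith) (by linarith)
    rw [hξ] at a1 a2
    linarith
  · refine ⟨s, -s, -s, -s, _, _, _, s1, s3, s1, ?_, z1, by linarith, z1⟩
    simp only [fun z => (hf z s).1, fun z => (hf z (-s)).2.1, fun z => (hf z (-s)).2.2.1]
    refine isCompact_of_bdry (Φ := fun w => 0 ≤ s * (l ^ 2 * b + (l ^ 2 * p - q) * w.1 - c * w.2) ∧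
      0 ≤ -s * (b + (p - q) * w.1 - c * w.2) ∧
      0 ≤ -s * (-(r ^ 2 * l ^ 2 * b) + r * (l ^ 2 * p - q) * w.1 + c * w.2) ∧
      0 ≤ -s * (b + (p - q) * w.1 - c * w.2)) ?_ (u := s * (l ^ 2 * b))
      (v := s * (l ^ 2 * p - q)) hc (fun x N h => by linarith [h.1]) ?_ K
    · simp only [Set.ofPred_and]
      refine IsClosed.inter ?_ (IsClosed.inter ?_ (IsClosed.inter ?_ ?_)) <;>
        exact isClosed_le continuous_const (by fun_prop)
    · rintro x ⟨h1, h2, h5, -⟩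
      rcases le_total (s * x) 0 with hx | hx
      · exact pair hl hp hb hc hd hx h1 h2
      · have a0 : q ≤ p := h4.trans (mul_le_of_le_one_left hp.le r1)
        have a1 : 0 ≤ s * c * x ^ 2 := by positivity
        have a2 : 0 ≤ r * (l ^ 2 * (s * b)) - (l ^ 2 * p - q) * (s * x) :=
          (mul_nonneg_iff_of_pos_left hr).1 (by simp only at h5; linarith)
        have a3 : 0 ≤ (1 - r) * (l ^ 2 * (s * b) +
            (r * (l ^ 2 * (s * b)) - (l ^ 2 * p - q) * (s * x))) :=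
          mul_nonneg (by linarith) (by linarith)
        have a4 : 0 ≤ (p - q) * (s * x) := mul_nonneg (by linarith) hx
        refine pair (s := s) (x := -x) hl hp hb hc hd (by linarith) ?_ ?_
        · simp only at h5
          linarith
        · simp only at h2
          linarith

theorem Can.enc_half (h : Can s A B A' B') (ht : tr B ≤ tr A) {M : ℍ} (m1 : sig A M = 0)
    (m2 : sig (A * B⁻¹) M = 0) : ∃ (j : ℤ) (σ : ℝ), (σ = s ∨ σ = -s) ∧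
      ∀ S : SL(2, ℝ) → Prop, S B → S (A * B * A⁻¹) → S ((A * B⁻¹) ^ j * A' * ((A * B⁻¹) ^ j)⁻¹) →
        (∀ i : ℤ, S ((A * B⁻¹) ^ i * B' * ((A * B⁻¹) ^ i)⁻¹)) → ∀ z : ℍ, sig A z = 0 →
          0 ≤ -s * sig B z → 0 ≤ s * sig (A * B * A⁻¹) z → 0 ≤ σ * sig (A * B⁻¹) z → Enc A S z := by
  obtain ⟨j, h1, h2⟩ := h.sweep M
  have s5 := h.succ j
  have hj := h.shift j
  rcases le_total 0 (s * sig ((A * B⁻¹) ^ j * A' * ((A * B⁻¹) ^ j)⁻¹) M) with h3 | h3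
  · exact ⟨j, -s, Or.inr rfl, fun S s1 s2 s3 s4 z z0 z1 z2 z3 =>
      hj.halfB ht m1 m2 h3 (s5 ▸ h2) s1 s2 s3 (s4 j) (s5 ▸ s4 (j + 1)) z0 z1 z2 z3⟩
  refine ⟨j, s, Or.inl rfl, fun S s1 s2 s3 s4 z z0 z1 z2 z3 => Enc.of_inv ?_⟩
  have s6 := s4 (j + 1)
  have s7 := s4 j
  rw [← s5] at s6
  generalize (A * B⁻¹) ^ j * A' * ((A * B⁻¹) ^ j)⁻¹ = P at *
  generalize (A * B⁻¹) ^ j * B' * ((A * B⁻¹) ^ j)⁻¹ = Q at *
  have e1 : A⁻¹ * (A * B * A⁻¹)⁻¹⁻¹ = (A * B⁻¹)⁻¹ := by group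
  have e2 : A⁻¹ * (A * B * A⁻¹)⁻¹ * A⁻¹⁻¹ = B⁻¹ := by group
  have e3 : P⁻¹ * (P * Q * P⁻¹)⁻¹ * P⁻¹⁻¹ = Q⁻¹ := by group
  refine hj.rev.halfB (M := M) (by rwa [tr_inv, tr_inv, tr_conj]) (by rw [sig_inv, m1, neg_zero])
    (by rw [e1, sig_inv, m2, neg_zero]) (by rw [sig_inv]; linarith) (by rw [e3, sig_inv]; linarith)
    (by rwa [inv_inv]) (by rwa [e2, inv_inv]) (by rwa [inv_inv]) (by rwa [inv_inv])
    (by rwa [e3, inv_inv]) (by rw [sig_inv, z0, neg_zero]) (by rw [sig_inv]; linarith)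
    (by rw [e2, sig_inv]; linarith) (by rw [e1, sig_inv]; linarith)

end Pool.Agent.MP_46f5ab_gt
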