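import Pool.Agent.Mg.F46f5abp.G3687fa

/-! The highest line cannot be covered by finite convex regions whose other sides are lower. -/

namespace Pool.Agent.MP_46f5ab_gt

open MulAction

variable {G Ω : Type*} [Group G] [MulAction G Ω]

theorem two_level_fam (hfree : ∀ (g : G) (x : Ω), g • x = x → g = 1) {β : G}
    (hβ : Function.Injective fun m : ℤ => β ^ m) {n : ℕ} (hn : 0 < n)
    {v : ℤ → Ω} (hv : ∀ i, v (i + n) = β • v i)
    (φ₁ : G → ℝ) (hφ₁ : ∀ a b, φ₁ (a * b) = φ₁ a + φ₁ b) (H : Subgroup G) (hβH : β ∈ H)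
    (hH : ∀ h ∈ H, φ₁ h = 0) (φ₂ : G → ℝ) (hφ₂ : ∀ a ∈ H, ∀ b ∈ H, φ₂ (a * b) = φ₂ a + φ₂ b)
    (hφ₂β : φ₂ β = 0)
    (hcover : ∀ i, ∃ (m : ℤ) (X : Set Ω), Quad v n (fun g => φ₁ g < 0 ∨ (g ∈ H ∧ φ₂ g < 0)) X ∧
      β ^ m • v i ∈ X) : False := by
  classical
  choose mm XX hXX hmm using hcover
  have hn' : (0 : ℤ) < n := by exact_mod_cast hn
  have hcancel : ∀ (g g' : G) (x : Ω), g • x = g' • x → g = g' := by
    intro g g' x h
    have := hfree (g'⁻¹ * g) x (by rw [mul_smul, h, inv_smul_smul])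
    exact (inv_mul_eq_one.1 this).symm
  have hdec : ∀ i : ℤ, ∃ (m : ℤ) (r : Fin n), v i = β ^ m • v r := by
    intro i
    have h1 := Int.emod_nonneg i hn'.ne'
    have h2 := Int.emod_lt_of_pos i hn'
    refine ⟨i / n, ⟨(i % n).toNat, by omega⟩, ?_⟩
    rw [← line_shift hv]
    congr 1
    simp only [Int.toNat_of_nonneg h1]
    exact (Int.emod_add_mul_ediv i n).symm
  have hφ₂pow : ∀ m : ℤ, φ₂ (β ^ m) = 0 := by
    have h1 : φ₂ 1 = 0 := by
      have := hφ₂ 1 H.one_mem 1 H.one_mem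
      rw [mul_one] at this
      linarith
    intro m
    induction m using Int.induction_on with
    | zero => simpa using h1
    | succ m ih => rw [zpow_add_one, hφ₂ _ (H.zpow_mem hβH _) _ hβH, ih, hφ₂β, add_zero]
    | pred m ih =>
      have := hφ₂ _ (H.zpow_mem hβH (-m - 1)) _ hβH
      rw [← zpow_add_one, sub_add_cancel, ih, hφ₂β, add_zero] at this
      exact this.symm
  -- the three graphs
  let V0 := orbitRel.Quotient G Ω
  let V1 := orbitRel.Quotient H Ω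
  let Q1 := orbitRel.Quotient H G
  let mk0 : Ω → V0 := Quotient.mk (orbitRel G Ω)
  let mk1 : Ω → V1 := Quotient.mk (orbitRel H Ω)
  let mkQ : G → Q1 := Quotient.mk (orbitRel H G)
  have hmk0 : ∀ x y, mk0 x = mk0 y ↔ ∃ g : G, g • y = x := fun x y => Quotient.eq
  have hmk1 : ∀ x y, mk1 x = mk1 y ↔ ∃ g : H, (g : G) • y = x := fun x y => Quotient.eq
  have hmkQ : ∀ x y, mkQ x = mkQ y ↔ ∃ g : H, (g : G) * y = x := fun x y => Quotient.eq
  let act : Q1 → Ω → V1 := fun q x => Quotient.lift (fun g : G => mk1 (g • x)) (by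
    rintro a b ⟨h, hh⟩
    exact (hmk1 _ _).2 ⟨h, by rw [← hh, ← mul_smul]; rfl⟩) q
  have hact : ∀ g x, act (mkQ g) x = mk1 (g • x) := fun g x => rfl
  let p10 : V1 → V0 := Quotient.lift mk0 (by
    rintro a b ⟨h, hh⟩
    exact (hmk0 _ _).2 ⟨h, hh⟩)
  have hp10 : ∀ x, p10 (mk1 x) = mk0 x := fun x => rfl
  let s0 : Fin n → V0 := fun r => mk0 (v r)
  let t0 : Fin n → V0 := fun r => mk0 (v (r + 1))
  let s1 : Q1 × Fin n → V1 := fun e => act e.1 (v e.2)
  let t1 : Q1 × Fin n → V1 := fun e => act e.1 (v (e.2 + 1))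
  let s2 : G × Fin n → Ω := fun e => e.1 • v e.2
  let t2 : G × Fin n → Ω := fun e => e.1 • v (e.2 + 1)
  let pE2 : G × Fin n → Q1 × Fin n := fun e => (mkQ e.1, e.2)
  have hact_inj : ∀ (x : Ω) (q q' : Q1), act q x = act q' x → q = q' := by
    intro x q q'
    induction q using Quotient.inductionOn with | _ g => ?_
    induction q' using Quotient.inductionOn with | _ g' => ?_
    intro h
    obtain ⟨k, hk⟩ := (hmk1 _ _).1 h
    exact (hmkQ _ _).2 ⟨k, hcancel _ _ x (by rw [mul_smul, hk])⟩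
  have hcov1 : ∀ (w : Fin n → Ω) (x : V1) (r : Fin n), mk0 (w r) = p10 x →
      ∃! e : Q1 × Fin n, e.2 = r ∧ act e.1 (w e.2) = x := by
    intro w x r
    induction x using Quotient.inductionOn with | _ y => ?_
    intro h
    obtain ⟨g, hg⟩ := (hmk0 _ _).1 h.symm
    refine ⟨(mkQ g, r), ⟨rfl, by rw [hact, hg]⟩, ?_⟩
    rintro ⟨q, r'⟩ ⟨h1, h2⟩
    obtain rfl : r' = r := h1
    refine Prod.ext (hact_inj (w r') _ _ ?_) rfl
    rw [hact, hg]
    exact h2
  have hcov2 : ∀ (w : Fin n → Ω) (x : Ω) (e : Q1 × Fin n), act e.1 (w e.2) = mk1 x →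
      ∃! e' : G × Fin n, pE2 e' = e ∧ e'.1 • w e'.2 = x := by
    rintro w x ⟨q, r⟩
    induction q using Quotient.inductionOn with | _ g => ?_
    intro h
    obtain ⟨k, hk⟩ := (hmk1 _ _).1 h.symm
    refine ⟨(k * g, r), ⟨Prod.ext ((hmkQ _ _).2 ⟨k, rfl⟩) rfl, by rw [mul_smul]; exact hk⟩, ?_⟩
    rintro ⟨g', r'⟩ ⟨h1, h2⟩
    obtain rfl : r' = r := congrArg Prod.snd h1
    refine Prod.ext (hcancel _ _ (w r') ?_) rfl
    rw [mul_smul]
    exact h2.trans hk.symm
  -- first level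
  obtain ⟨f0, hf0⟩ := exists_equivariant hfree ⊤ φ₁ fun a _ b _ => hφ₁ a b
  obtain ⟨u1, hu1⟩ := graph_opt s0 t0 (Finset.univ.image s0 ∪ Finset.univ.image t0) ∅ Finset.univ
    (fun _ _ => Set.notMem_empty _) (fun _ _ => Finset.mem_univ _)
    (fun r => f0 (v r) - f0 (v (r + 1)))
    (fun D _ => Finset.sum_nonneg fun e _ => by simp [lowSign, cost])
    s1 t1 p10 Prod.snd
    (by
      rintro ⟨q, r⟩
      induction q using Quotient.inductionOn with | _ g => ?_
      exact ((hmk0 _ _).2 ⟨g, rfl⟩).symm)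
    (by
      rintro ⟨q, r⟩
      induction q using Quotient.inductionOn with | _ g => ?_
      exact ((hmk0 _ _).2 ⟨g, rfl⟩).symm)
    (fun x r h => hcov1 (fun r => v r) x r h) (fun x r h => hcov1 (fun r => v (r + 1)) x r h)
  let f1 : Ω → ℝ := fun x => f0 x + u1 (mk0 x)
  have hf1 : ∀ (g : G) x, f1 (g • x) = φ₁ g + f1 x := by
    intro g x
    have : mk0 (g • x) = mk0 x := (hmk0 _ _).2 ⟨g, rfl⟩
    simp only [f1, this, hf0 g (Subgroup.mem_top g), add_assoc]
  let F1 : V1 → ℝ := Quotient.lift f1 (by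
    rintro a b ⟨h, hh⟩
    have : (h : G) • b = a := hh
    rw [← this, hf1, hH h h.2, zero_add])
  have hF1 : ∀ x, F1 (mk1 x) = f1 x := fun x => rfl
  have : Nonempty (Fin n) := ⟨⟨0, hn⟩⟩
  obtain ⟨r1, -, hr1⟩ := Finset.univ.exists_max_image (fun r : Fin n => f1 (v r))
    Finset.univ_nonempty
  set M1 := f1 (v r1) with hM1
  have hM1le : ∀ i, f1 (v i) ≤ M1 := by
    intro i
    obtain ⟨m, r, h⟩ := hdec i
    rw [h, hf1, hH _ (H.zpow_mem hβH m), zero_add]
    exact hr1 r (Finset.mem_univ _)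
  -- second level
  let Low : Set V1 := {x | F1 x < M1}
  let FX : Finset Ω := (Finset.univ.biUnion fun r : Fin n => (hXX r).fin.toFinset).image s2
  let W : Finset V1 := (FX.filter fun x => M1 ≤ f1 x).image mk1
  have hfinE : ∀ w : Fin n → Ω, {e : Q1 × Fin n | act e.1 (w e.2) ∈ W}.Finite := by
    intro w
    refine Set.Finite.of_finite_image (f := fun e => (act e.1 (w e.2), e.2))
      ((W.finite_toSet.prod Set.finite_univ).subset ?_) ?_
    · rintro _ ⟨e, he, rfl⟩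
      exact ⟨he, Set.mem_univ _⟩
    · rintro ⟨q, r⟩ _ ⟨q', r'⟩ _ h
      obtain rfl : r = r' := congrArg Prod.snd h
      exact Prod.ext (hact_inj (w r) _ _ (congrArg Prod.fst h)) rfl
  let E0 : Finset (Q1 × Fin n) := (hfinE fun r => v r).toFinset ∪ (hfinE fun r => v (r + 1)).toFinset
  have hE0 : ∀ e, s1 e ∈ W ∨ t1 e ∈ W → e ∈ E0 := by
    rintro e (h | h)
    · exact Finset.mem_union_left _ ((Set.Finite.mem_toFinset _).2 h)
    · exact Finset.mem_union_right _ ((Set.Finite.mem_toFinset _).2 h)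
  have hWge : ∀ x ∈ W, M1 ≤ F1 x := by
    intro x hx
    obtain ⟨y, hy, rfl⟩ := Finset.mem_image.1 hx
    exact (Finset.mem_filter.1 hy).2
  obtain ⟨g0, hg0⟩ := exists_equivariant hfree H φ₂ hφ₂
  let c2 : Q1 × Fin n → ℝ := fun e =>
    Quotient.lift (fun g : G => g0 (g • v e.2) - g0 (g • v (e.2 + 1))) (by
      rintro a b ⟨h, hh⟩
      have : (h : G) * b = a := hh
      simp only [← this, mul_smul, hg0 h h.2]
      ring) e.1
  obtain ⟨u2, hu2⟩ := graph_opt s1 t1 W Low E0 (fun x hx => not_lt.2 (hWge x hx)) hE0 c2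
    (by
      intro D hD
      refine (hu1 D E0 ?_ fun e h => hE0 e (h.imp (@hD _) (@hD _))).trans
        (Finset.sum_le_sum ?_)
      · intro x hx
        obtain ⟨y, hy, rfl⟩ := Finset.mem_image.1 (hD hx)
        obtain ⟨e, -, rfl⟩ := Finset.mem_image.1 (Finset.mem_filter.1 hy).1
        refine Finset.mem_union_left _ (Finset.mem_image.2 ⟨e.2, Finset.mem_univ _, ?_⟩)
        exact ((hmk0 _ _).2 ⟨e.1, rfl⟩).symm
      · rintro ⟨q, r⟩ -
        induction q using Quotient.inductionOn with | _ g => ?_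
        have hx : f0 (v r) - f0 (v (r + 1)) + (u1 (s0 r) - u1 (t0 r)) =
            F1 (s1 (mkQ g, r)) - F1 (t1 (mkQ g, r)) := by
          change _ = f1 (g • v r) - f1 (g • v (r + 1))
          rw [hf1, hf1]
          simp only [f1, s0, t0]
          ring
        change cost (dsign (lowSign s0 t0 ∅ r)
          (f0 (v r) - f0 (v (r + 1)) + (u1 (s0 r) - u1 (t0 r)))) (-outf s1 t1 D (mkQ g, r)) ≤
          cost (lowSign s1 t1 Low (mkQ g, r)) (-outf s1 t1 D (mkQ g, r))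
        rw [hx]
        generalize (mkQ g, r) = e
        have hl : lowSign s0 t0 ∅ r = 0 := by simp [lowSign]
        rw [hl]
        by_cases hc : s1 e ∈ (D : Set V1) ↔ t1 e ∈ (D : Set V1)
        · rw [cost_out_uncut _ _ _ _ _ hc, cost_out_uncut _ _ _ _ _ hc]
        unfold lowSign
        split_ifs with ht hs
        · have h1 : t1 e ∉ (D : Set V1) := fun h => not_lt.2 (hWge _ (hD h)) ht
          have h2 : s1 e ∈ (D : Set V1) := by tauto
          have h3 : 0 < F1 (s1 e) - F1 (t1 e) := by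
            have := hWge _ (hD h2)
            have h4 : F1 (t1 e) < M1 := ht
            linarith
          simp [dsign, sign_pos h3]
        · have h1 : s1 e ∉ (D : Set V1) := fun h => not_lt.2 (hWge _ (hD h)) hs
          have h2 : t1 e ∈ (D : Set V1) := by tauto
          have h3 : F1 (s1 e) - F1 (t1 e) < 0 := by
            have := hWge _ (hD h2)
            have h4 : F1 (s1 e) < M1 := hs
            linarith
          simp [dsign, sign_neg h3]
        · exact (cost_le_abs _ _).trans (by simp [cost]))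
    s2 t2 mk1 pE2 (fun e => rfl) (fun e => rfl)
    (fun x e h => hcov2 (fun r => v r) x e h) (fun x e h => hcov2 (fun r => v (r + 1)) x e h)
  let f2 : Ω → ℝ := fun x => g0 x + u2 (mk1 x)
  have hf2 : ∀ g ∈ H, ∀ x, f2 (g • x) = φ₂ g + f2 x := by
    intro g hg x
    have : mk1 (g • x) = mk1 x := (hmk1 _ _).2 ⟨⟨g, hg⟩, rfl⟩
    simp only [f2, this, hg0 g hg, add_assoc]
  obtain ⟨r2, hr2, hr2'⟩ := (Finset.univ.filter fun r : Fin n => M1 ≤ f1 (v r)).exists_max_image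
    (fun r : Fin n => f2 (v r)) ⟨r1, Finset.mem_filter.2 ⟨Finset.mem_univ _, le_rfl⟩⟩
  set M2 := f2 (v r2) with hM2
  have hM2le : ∀ i, M1 ≤ f1 (v i) → f2 (v i) ≤ M2 := by
    intro i hi
    obtain ⟨m, r, h⟩ := hdec i
    rw [h, hf1, hH _ (H.zpow_mem hβH m), zero_add] at hi
    rw [h, hf2 _ (H.zpow_mem hβH m), hφ₂pow, zero_add]
    exact hr2' r (Finset.mem_filter.2 ⟨Finset.mem_univ _, hi⟩)
  have main : ∀ Y : Set Ω, Quad v n (fun g => φ₁ g < 0 ∨ (g ∈ H ∧ φ₂ g < 0)) Y →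
      (∀ (g : G) (i : ℤ), g • v i ∈ Y → g • v i ∈ FX) → ∀ m : ℤ, β ^ m • v r2 ∉ Y := by
    intro Y hY hYF m hm
    let D : Finset Ω := FX.filter fun x => x ∈ Y ∧ M1 ≤ f1 x ∧ M2 ≤ f2 x
    have hfinE2 : ∀ w : Fin n → Ω, {e : G × Fin n | e.1 • w e.2 ∈ D}.Finite := by
      intro w
      refine Set.Finite.of_finite_image (f := fun e => (e.1 • w e.2, e.2))
        ((D.finite_toSet.prod Set.finite_univ).subset ?_) ?_
      · rintro _ ⟨e, he, rfl⟩
        exact ⟨he, Set.mem_univ _⟩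
      · rintro ⟨q, r⟩ _ ⟨q', r'⟩ _ h
        obtain rfl : r = r' := congrArg Prod.snd h
        exact Prod.ext (hcancel _ _ (w r) (congrArg Prod.fst h)) rfl
    let E1 : Finset (G × Fin n) :=
      (hfinE2 fun r => v r).toFinset ∪ (hfinE2 fun r => v (r + 1)).toFinset
    have hE1 : ∀ e, s2 e ∈ D ∨ t2 e ∈ D → e ∈ E1 := by
      rintro e (h | h)
      · exact Finset.mem_union_left _ ((Set.Finite.mem_toFinset _).2 h)
      · exact Finset.mem_union_right _ ((Set.Finite.mem_toFinset _).2 h)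
    have h1 := hu2 D E1 (fun x hx => Finset.mem_image_of_mem _
      (Finset.mem_filter.2 ⟨(Finset.mem_filter.1 hx).1, (Finset.mem_filter.1 hx).2.2.1⟩)) hE1
    refine absurd h1 (not_le.2 ?_)
    refine quad_sum_neg hβ hn hv hY (D : Set Ω) (fun x hx => (Finset.mem_filter.1 hx).2.1) ?_ ?_ _
      (fun e => cost_out_le_one _ _ _ _ _) (fun e h => cost_out_uncut _ _ _ _ _ h) ?_ E1 hE1
    · rintro g (hg | ⟨hgH, hg⟩) i hi
      · have h2 := (Finset.mem_filter.1 hi).2.2.1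
        rw [hf1] at h2
        linarith [hM1le i]
      · obtain ⟨-, -, h2, h3⟩ := Finset.mem_filter.1 hi
        rw [hf1, hH g hgH, zero_add] at h2
        rw [hf2 g hgH] at h3
        linarith [hM2le i h2]
    · refine ⟨r2 + n * m, ?_⟩
      rw [line_shift hv]
      refine Finset.mem_filter.2 ⟨hYF _ _ hm, hm, ?_, ?_⟩
      · rw [hf1, hH _ (H.zpow_mem hβH m), zero_add]
        exact (Finset.mem_filter.1 hr2).2
      · rw [hf2 _ (H.zpow_mem hβH m), hφ₂pow, zero_add]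
    · intro e hs ht hc
      have hx : c2 (pE2 e) + (u2 (s1 (pE2 e)) - u2 (t1 (pE2 e))) = f2 (s2 e) - f2 (t2 e) := by
        change g0 (s2 e) - g0 (t2 e) + (u2 (mk1 (s2 e)) - u2 (mk1 (t2 e))) = _
        simp only [f2]
        ring
      rw [hx]
      have hs' : s2 e ∈ Y := hs
      have ht' : t2 e ∈ Y := ht
      have hc' : ¬ (s2 e ∈ (D : Set Ω) ↔ t2 e ∈ (D : Set Ω)) := hc
      have hsD : s2 e ∈ (D : Set Ω) ↔ M1 ≤ f1 (s2 e) ∧ M2 ≤ f2 (s2 e) :=
        ⟨fun h => (Finset.mem_filter.1 h).2.2, fun h => Finset.mem_filter.2 ⟨hYF _ _ hs, hs, h⟩⟩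
      have htD : t2 e ∈ (D : Set Ω) ↔ M1 ≤ f1 (t2 e) ∧ M2 ≤ f2 (t2 e) :=
        ⟨fun h => (Finset.mem_filter.1 h).2.2, fun h => Finset.mem_filter.2 ⟨hYF _ _ ht, ht, h⟩⟩
      have hls : s1 (pE2 e) ∈ Low ↔ f1 (s2 e) < M1 := Iff.rfl
      have hlt : t1 (pE2 e) ∈ Low ↔ f1 (t2 e) < M1 := Iff.rfl
      by_cases h2 : s2 e ∈ (D : Set Ω)
      · have h3 : t2 e ∉ (D : Set Ω) := by tauto
        have h4 : dsign (lowSign s1 t1 Low (pE2 e)) (f2 (s2 e) - f2 (t2 e)) = 1 := by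
          by_cases h5 : f1 (t2 e) < M1
          · simp [lowSign, hlt, h5, dsign]
          · have h6 : ¬ f1 (s2 e) < M1 := not_lt.2 (hsD.1 h2).1
            have h7 : f2 (t2 e) < M2 := not_le.1 fun h => h3 (htD.2 ⟨not_lt.1 h5, h⟩)
            have h8 : 0 < f2 (s2 e) - f2 (t2 e) := by linarith [(hsD.1 h2).2]
            simp [lowSign, hlt, hls, h5, h6, dsign, sign_pos h8]
        rw [h4]
        simp [cost, outf, h2, h3]
      · have h3 : t2 e ∈ (D : Set Ω) := by tauto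
        have h4 : dsign (lowSign s1 t1 Low (pE2 e)) (f2 (s2 e) - f2 (t2 e)) = -1 := by
          have h6 : ¬ f1 (t2 e) < M1 := not_lt.2 (htD.1 h3).1
          by_cases h5 : f1 (s2 e) < M1
          · simp [lowSign, hlt, hls, h5, h6, dsign]
          · have h7 : f2 (s2 e) < M2 := not_le.1 fun h => h2 (hsD.2 ⟨not_lt.1 h5, h⟩)
            have h8 : f2 (s2 e) - f2 (t2 e) < 0 := by linarith [(htD.1 h3).2]
            simp [lowSign, hlt, hls, h5, h6, dsign, sign_neg h8]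
        rw [h4]
        simp [cost, outf, h2, h3]
  refine main (XX r2) (hXX r2) (fun g i h => ?_) (mm r2) (hmm r2)
  obtain ⟨m, r, hr⟩ := hdec i
  rw [hr, ← mul_smul] at h ⊢
  exact Finset.mem_image.2 ⟨(g * β ^ m, r), Finset.mem_biUnion.2 ⟨r2, Finset.mem_univ _,
    (Set.Finite.mem_toFinset _).2 h⟩, rfl⟩

end Pool.Agent.MP_46f5ab_gt
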