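import Pool.Agent.MP_46f5ab_gt.PwGeo
import Pool.Agent.MP_46f5ab_gt.PwTwo

/-! Terms of opposite sign in the bracket of two powers are never conjugate. -/

namespace Pool.Agent.MP_46f5ab_gt

open UpperHalfPlane MatrixGroups

variable {G X : Type*} [Group G] [MulAction G X] [TopologicalSpace X] {e : X ≃ₜ ℍ}

/-- Conjugates `a, a'` of `β ^ m` and `b, b'` of `β ^ n` with `a b⁻¹ = a' b'⁻¹` and crossings of
opposite signs. -/
def CancelP (e : X ≃ₜ ℍ) (β : G) (m n : ℤ) (k₀ k₁ k₂ k₃ : G) : Prop :=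
  ∃ (R A B A' B' : SL(2, ℝ)) (s : ℝ), Acts e β R ∧ 2 < tr R ∧ Acts e (k₀ * β ^ m * k₀⁻¹) A ∧
    Acts e (k₁ * β ^ n * k₁⁻¹) B ∧ Acts e (k₂ * β ^ m * k₂⁻¹) A' ∧
    Acts e (k₃ * β ^ n * k₃⁻¹) B' ∧ Can s A B A' B'

/-- All elements of `S` are lower than the identity, on two levels. -/
def Lev (φ₁ : G → ℝ) (a : G) (S : Set G) : Prop :=
  ∃ (H : Subgroup G) (φ₂ : G → ℝ), a ∈ H ∧ (∀ h ∈ H, φ₁ h = 0) ∧
    (∀ x ∈ H, ∀ y ∈ H, φ₂ (x * y) = φ₂ x + φ₂ y) ∧ φ₂ a = 0 ∧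
    ∀ g ∈ S, φ₁ g < 0 ∨ (g ∈ H ∧ φ₂ g < 0)

/-- The matrix of a power of a conjugate of `β` by an element of `S`. -/
def GoodM (e : X ≃ₜ ℍ) (β : G) (S : Set G) (M : SL(2, ℝ)) : Prop :=
  ∃ g ∈ S, ∃ k : ℤ, Acts e (g * β ^ k * g⁻¹) M ∧ 0 < tr M

lemma Acts.not_comm {a b : G} {A B : SL(2, ℝ)} {s : ℝ} (ha : Acts e a A) (hb : Acts e b B)
    (hc : Cross s A B) (h2 : 2 < tr A) : a * b ≠ b * a := by
  intro h
  have b1 := ha.mul hb
  rw [h] at b1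
  rcases b1.eq_or (hb.mul ha) with b2 | b2
  · exact hc.ne_comm b2
  · have b3 : A = -(B * A * B⁻¹) := by
      rw [← neg_mul, ← b2, mul_inv_cancel_right]
    have b4 := congrArg tr b3
    rw [tr_neg, tr_conj] at b4
    linarith

lemma Acts.exp_ne {g β : G} {k : ℤ} {M : SL(2, ℝ)} (h : Acts e (g * β ^ k * g⁻¹) M)
    (h2 : 2 < tr M) : k ≠ 0 := by
  rintro rfl
  rw [zpow_zero, mul_one, mul_inv_cancel] at h
  have h1 : tr (1 : SL(2, ℝ)) = 2 := by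
    rw [tr, one00, one11]
    norm_num
  rw [h.eq_of_tr Acts.one (by linarith) (by linarith)] at h2
  linarith

lemma tr_diag_pos {l : ℝ} (hl : 0 < l) : 0 < tr (diag l hl) := by
  rw [tr_diag]
  positivity

lemma exp_sq_mono {κ t t' : ℝ} (h : 0 ≤ κ * (t - t')) :
    0 ≤ κ * (Real.exp t ^ 2 - Real.exp t' ^ 2) := by
  rcases le_total t t' with h1 | h1
  · rcases h1.eq_or_lt with rfl | h2
    · simp
    · have h3 : κ ≤ 0 := by
        by_contra h4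
        nlinarith
      have h5 : Real.exp t ^ 2 ≤ Real.exp t' ^ 2 := by gcongr
      nlinarith
  · rcases h1.eq_or_lt with rfl | h2
    · simp
    · have h3 : 0 ≤ κ := by
        by_contra h4
        nlinarith
      have h5 : Real.exp t' ^ 2 ≤ Real.exp t ^ 2 := by gcongr
      nlinarith

lemma seg_of_cross {x s : ℝ} (hx : 0 < x) {B : SL(2, ℝ)} (h : Cross (-s) (diag x hx) B) :
    ∃ t0 κ : ℝ, 0 < κ * Real.log x ∧ sig B (axisPt t0) = 0 ∧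
      sig (diag x hx * B⁻¹) (axisPt (t0 + Real.log x)) = 0 ∧ ∀ t,
      (0 ≤ κ * (t - t0) → 0 ≤ -s * sig B (axisPt t)) ∧
      (0 ≤ κ * (t0 + 2 * Real.log x - t) →
        0 ≤ s * sig (diag x hx * B * (diag x hx)⁻¹) (axisPt t)) ∧
      (0 ≤ κ * (t - (t0 + Real.log x)) → 0 ≤ s * sig (diag x hx * B⁻¹) (axisPt t)) ∧
      (0 ≤ κ * (t0 + Real.log x - t) → 0 ≤ -s * sig (diag x hx * B⁻¹) (axisPt t)) := by
  obtain ⟨h1, h2⟩ := h
  have e1 : comDet (diag x hx) B = (x - x⁻¹) ^ 2 * (B 0 1 * B 1 0) := by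
    simp only [comDet, mul_entry, diag, mkSL00, mkSL01, mkSL10, mkSL11]
    ring
  have e2 : -s * com10 (diag x hx) B = s * B 1 0 * (x - x⁻¹) := by
    simp only [com10, mul_entry, diag, mkSL00, mkSL10, mkSL11]
    ring
  rw [e1] at h1
  rw [e2] at h2
  have a1 : 0 < B 0 1 * B 1 0 := by
    by_contra h
    nlinarith [mul_nonneg (sq_nonneg (x - x⁻¹)) (neg_nonneg.2 (not_lt.1 h))]
  have hc : B 1 0 ≠ 0 := fun h => by simp [h] at a1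
  have a2 : 0 < B 0 1 / B 1 0 := by
    have : B 0 1 / B 1 0 = B 0 1 * B 1 0 / B 1 0 ^ 2 := by field_simp
    rw [this]
    positivity
  obtain ⟨t0, ht0⟩ : ∃ t0, B 0 1 = B 1 0 * Real.exp t0 ^ 2 := by
    refine ⟨Real.log (B 0 1 / B 1 0) / 2, ?_⟩
    rw [sq, ← Real.exp_add, add_halves, Real.exp_log a2]
    field_simp
  have b1 : Real.exp (t0 + Real.log x) = Real.exp t0 * x := by rw [Real.exp_add, Real.exp_log hx]
  have b2 : Real.exp (t0 + 2 * Real.log x) = Real.exp t0 * x ^ 2 := by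
    rw [two_mul, Real.exp_add, Real.exp_add, Real.exp_log hx, sq]
  have c1 : ∀ t, sig B (axisPt t) = B 1 0 * (Real.exp t0 ^ 2 - Real.exp t ^ 2) / Real.exp t := by
    intro t
    rw [sig_axisPt, ht0]
    ring
  have c2 : ∀ t, sig (diag x hx * B * (diag x hx)⁻¹) (axisPt t) =
      B 1 0 * (Real.exp (t0 + 2 * Real.log x) ^ 2 - Real.exp t ^ 2) / (x ^ 2 * Real.exp t) := by
    intro t
    rw [sig_axisPt, b2]
    simp only [mul_entry, inv00, inv01, inv10, inv11, diag, mkSL00, mkSL01, mkSL10, mkSL11, ht0]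
    field_simp
    ring
  have c3 : ∀ t, sig (diag x hx * B⁻¹) (axisPt t) =
      B 1 0 * (Real.exp t ^ 2 - Real.exp (t0 + Real.log x) ^ 2) / (x * Real.exp t) := by
    intro t
    rw [sig_axisPt, b1]
    simp only [mul_entry, inv00, inv01, inv10, inv11, diag, mkSL00, mkSL01, mkSL10, mkSL11, ht0]
    field_simp
    ring
  refine ⟨t0, s * B 1 0, ?_, by rw [c1]; simp, by rw [c3]; simp, fun t => ⟨fun h => ?_, fun h => ?_,
    fun h => ?_, fun h => ?_⟩⟩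
  · rcases lt_trichotomy x 1 with h | h | h
    · have h3 : x - x⁻¹ < 0 := by
        have := (one_lt_inv₀ hx).2 h
        linarith
      have h4 : s * B 1 0 < 0 := by
        by_contra h5
        nlinarith
      exact mul_pos_of_neg_of_neg h4 (Real.log_neg hx h)
    · simp [h] at h2
    · exact mul_pos ((mul_pos_iff_of_pos_right (sub_inv_pos h)).1 h2) (Real.log_pos h)
  · rw [c1, nn_div (Real.exp_pos t)]
    linarith [exp_sq_mono h]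
  · rw [c2, nn_div (by positivity)]
    linarith [exp_sq_mono h]
  · rw [c3, nn_div (by positivity)]
    linarith [exp_sq_mono h]
  · rw [c3, nn_div (by positivity)]
    linarith [exp_sq_mono h]

section diagonal

variable {β : G} {l : ℝ} (hl : 1 < l)

lemma Fuchs.root_sig (F : Fuchs G e) (hβ : Acts e β (diag l (by linarith))) {g : G} {k : ℤ}
    {M : SL(2, ℝ)} (hM : Acts e (g * β ^ k * g⁻¹) M) (h0 : 0 < tr M) :
    ∃ (M' : SL(2, ℝ)) (ρ : ℝ), Acts e (g * β * g⁻¹) M' ∧ tr M' = tr (diag l (by linarith)) ∧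
      (k ≠ 0 → ρ ≠ 0) ∧ tr M = l ^ k + (l ^ k)⁻¹ ∧ ∀ z, sig M z = ρ * sig M' z := by
  have hl0 : 0 < l := by linarith
  obtain ⟨N, hN⟩ := F.mob g
  have h1 := hN.conj (hβ.zpow k)
  rw [diag_zpow] at h1
  obtain rfl := hM.eq_of_tr h1 h0 (by rw [tr_conj]; exact tr_diag_pos _)
  have h2 := sub_inv_pos hl
  refine ⟨_, (l ^ k - (l ^ k)⁻¹) / (l - l⁻¹), hN.conj hβ, tr_conj _ _, fun hk => ?_,
    by rw [tr_conj, tr_diag], fun z => ?_⟩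
  · refine div_ne_zero (sub_ne_zero.2 fun h => hk ?_) h2.ne'
    rw [← zpow_neg] at h
    have := zpow_right_injective₀ hl0 hl.ne' h
    omega
  · rw [← smul_inv_smul N z, sig_conj, sig_conj, sig_diag, sig_diag]
    generalize l - l⁻¹ = u at h2
    generalize l ^ k - (l ^ k)⁻¹ = v
    field_simp

lemma Fuchs.core_enc (F : Fuchs G e) (hβ : Acts e β (diag l (by linarith))) {φ₁ : G → ℝ}
    (hφ₁ : ∀ a b, φ₁ (a * b) = φ₁ a + φ₁ b) {S : Set G} (hS : Lev φ₁ β S)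
    (hne : (crossSet e β).Nonempty) {m : ℤ} {t1 : ℝ}
    (hcov : ∀ t, t1 ≤ t → t ≤ t1 + 2 * Real.log l →
      Enc (diag (l ^ m) (by positivity)) (GoodM e β S) (axisPt t)) : False := by
  obtain ⟨H, φ₂, hβH, hH, hφ₂, hφ₂β, hgood⟩ := hS
  have hl0 : 0 < l := by linarith
  have hL : 0 < 2 * Real.log l := by have := Real.log_pos hl; linarith
  obtain ⟨n, τ, hn, hτ, hS, hper⟩ := exists_enum (crossSet e β) _ hL (fun t =>
    ⟨fun h => by simpa using crossSet_shift hl hβ (-1) h,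
      fun h => by simpa using crossSet_shift hl hβ 1 h⟩) (F.crossSet_finite hl hβ) hne
  have hv : ∀ i, e.symm (axisPt (τ (i + n))) = β • e.symm (axisPt (τ i)) := by
    intro i
    have := zpow_smul_axis hl hβ 1 (τ i)
    rw [zpow_one] at this
    rw [this, hper]
    simp
  refine two_level_fam (v := fun i => e.symm (axisPt (τ i))) F.free (zpow_injective_of_diag hl hβ)
    hn hv φ₁ hφ₁ H hβH hH φ₂ hφ₂ hφ₂β fun i => ?_
  set L := 2 * Real.log l with hLdef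
  refine ⟨-⌊(τ i - t1) / L⌋, ?_⟩
  rw [zpow_smul_axis hl hβ]
  set t := τ i + ((-⌊(τ i - t1) / L⌋ : ℤ) : ℝ) * L with ht
  have b1 : t1 ≤ t := by
    have := Int.sub_floor_div_mul_nonneg (τ i - t1) hL
    rw [ht]
    push_cast
    linarith
  have b2 : t ≤ t1 + L := by
    have := Int.sub_floor_div_mul_lt (τ i - t1) hL
    rw [ht]
    push_cast
    linarith
  obtain ⟨ε₀, ε₁, ε₂, ε₃, M₁, M₂, M₃, ⟨g₁, s₁, k₁, a₁, t₁⟩, ⟨g₂, s₂, k₂, a₂, t₂⟩, ⟨g₃, s₃, k₃, a₃, t₃⟩,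
    hK, z₁, z₂, z₃⟩ := hcov t b1 b2
  have a₀ : Acts e (1 * β ^ m * 1⁻¹) (diag (l ^ m) (by positivity)) := by
    have := hβ.zpow m
    rw [diag_zpow] at this
    simpa using this
  obtain ⟨N₀, ρ₀, c₀, d₀, -, -, f₀⟩ := F.root_sig hl hβ a₀ (tr_diag_pos _)
  obtain ⟨N₁, ρ₁, c₁, d₁, -, -, f₁⟩ := F.root_sig hl hβ a₁ t₁
  obtain ⟨N₂, ρ₂, c₂, d₂, -, -, f₂⟩ := F.root_sig hl hβ a₂ t₂
  obtain ⟨N₃, ρ₃, c₃, d₃, -, -, f₃⟩ := F.root_sig hl hβ a₃ t₃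
  refine ⟨_, F.quad hl hβ (n := n) hτ hS (fun g => φ₁ g < 0 ∨ (g ∈ H ∧ φ₂ g < 0))
    (fun j => Option.casesOn j (ε₀ * ρ₀) ![ε₁ * ρ₁, ε₂ * ρ₂, ε₃ * ρ₃])
    (fun j => Option.casesOn j N₀ ![N₁, N₂, N₃]) (fun j => Option.casesOn j 1 ![g₁, g₂, g₃])
    (by
      rintro (_ | j)
      · exact c₀
      · fin_cases j
        exacts [c₁, c₂, c₃])
    (by
      rintro (_ | j)
      · exact d₀
      · fin_cases j
        exacts [d₁, d₂, d₃])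
    rfl (fun j => by fin_cases j; exacts [hgood _ s₁, hgood _ s₂, hgood _ s₃]) _ hK
    (fun z => by simp [Option.forall, Fin.forall_fin_succ, f₀, f₁, f₂, f₃, mul_assoc]), ?_⟩
  simp only [Set.mem_preimage, e.apply_symm_apply, Set.mem_ofPred_eq]
  exact ⟨by simp [sig_diag, axisPt_re], z₁, z₂, z₃⟩

include hl in
lemma tr_zpow_le {m n : ℤ} (h : |n| ≤ |m|) : l ^ n + (l ^ n)⁻¹ ≤ l ^ m + (l ^ m)⁻¹ := by
  have hl0 : 0 < l := by linarith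
  have key : ∀ k : ℤ, l ^ k + (l ^ k)⁻¹ = 2 * Real.cosh (k * Real.log l) := fun k => by
    rw [Real.cosh_eq, Real.exp_neg, ← Real.log_zpow, Real.exp_log (zpow_pos hl0 k)]
    ring
  rw [key, key]
  refine mul_le_mul_of_nonneg_left (Real.cosh_le_cosh.2 ?_) zero_le_two
  rw [abs_mul, abs_mul]
  refine mul_le_mul_of_nonneg_right ?_ (abs_nonneg _)
  exact_mod_cast h

lemma Fuchs.core_pow (F : Fuchs G e) (hβ : Acts e β (diag l (by linarith))) {m n : ℤ}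
    {g₁ g₂ g₃ c : G} {A B A' B' : SL(2, ℝ)} {s : ℝ} (hA : Acts e (β ^ m) A)
    (hB : Acts e (g₁ * β ^ n * g₁⁻¹) B) (hA' : Acts e (g₂ * β ^ m * g₂⁻¹) A')
    (hB' : Acts e (g₃ * β ^ n * g₃⁻¹) B') (h : Can s A B A' B')
    (hc : c = β ^ m * (g₁ * β ^ n * g₁⁻¹)⁻¹) {φ₁ : G → ℝ} (hφ₁ : ∀ a b, φ₁ (a * b) = φ₁ a + φ₁ b)
    (hex : g₁ * β ≠ β * g₁ →
      Lev φ₁ β {g | g = g₁ ∨ g = β ^ m * g₁ ∨ (∃ j : ℤ, g = c ^ j * g₂) ∨ ∃ j : ℤ, g = c ^ j * g₃} ∨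
      (2 ≤ |m| ∧ |n| ≤ |m| ∧ ∀ j : ℤ, c ^ j * g₂ * β ≠ β * (c ^ j * g₂) →
        Lev φ₁ β {g | g = g₁ ∨ g = β ^ m * g₁ ∨ g = c ^ j * g₂ ∨ ∃ i : ℤ, g = c ^ i * g₃})) :
    False := by
  have hl0 : 0 < l := by linarith
  have hL := Real.log_pos hl
  have hx : 0 < l ^ m := zpow_pos hl0 m
  have tA := h.tA
  have tB := h.tB
  have hm : m ≠ 0 := Acts.exp_ne (e := e) (g := (1 : G)) (β := β) (by simpa using hA) tA
  have hn : n ≠ 0 := hB.exp_ne tB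
  obtain rfl : A = diag (l ^ m) hx := by
    have := hβ.zpow m
    rw [diag_zpow] at this
    exact hA.eq_of_tr this (by linarith) (tr_diag_pos _)
  set A := diag (l ^ m) hx with hAd
  have hnc := hA.not_comm hB h.cr tA
  have n1 : g₁ * β ≠ β * g₁ := fun h1 => hnc (by
    rw [((show Commute g₁ β from h1).zpow_right n).eq, mul_inv_cancel_right, ← zpow_add, ← zpow_add,
      add_comm])
  have hC : Acts e c (A * B⁻¹) := hc ▸ hA.mul hB.inv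
  obtain ⟨t0, κ, k1, k2, k3, k4⟩ := seg_of_cross hx h.cr
  rw [Real.log_zpow] at k1 k3 k4
  obtain ⟨B₀, ρ, r1, r2, r3, r4, r5⟩ := F.root_sig hl hβ hB (by linarith)
  have hne : (crossSet e β).Nonempty := by
    have h2 := two_lt_tr_diag hl
    obtain ⟨t', ht'⟩ := F.on_axis hl hβ r1 (by linarith) (x := e.symm (axisPt t0)) (by
      rw [e.apply_symm_apply]
      exact (mul_eq_zero.1 ((r5 _).symm.trans k2)).resolve_left (r3 hn))
    refine ⟨t0, g₁, t', ht', fun h1 => hnc ?_⟩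
    rw [← conj_zpow]
    rcases h1 with h1 | h1 <;> rw [h1]
    · exact (Commute.zpow_zpow_self β m n).eq
    · exact ((Commute.refl β).inv_right.zpow_zpow m n).eq
  have g1 : ∀ S : Set G, g₁ ∈ S → GoodM e β S B := fun S h1 => ⟨_, h1, n, hB, by linarith⟩
  have g2 : ∀ S : Set G, β ^ m * g₁ ∈ S → GoodM e β S (A * B * A⁻¹) := fun S h1 => by
    refine ⟨_, h1, n, ?_, by rw [tr_conj]; linarith⟩
    have := hA.conj hB
    rwa [show β ^ m * (g₁ * β ^ n * g₁⁻¹) * (β ^ m)⁻¹ = β ^ m * g₁ * β ^ n * (β ^ m * g₁)⁻¹ by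
      group] at this
  have a3 : ∀ j : ℤ, Acts e (c ^ j * g₂ * β ^ m * (c ^ j * g₂)⁻¹)
      ((A * B⁻¹) ^ j * A' * ((A * B⁻¹) ^ j)⁻¹) := fun j => by
    have := (hC.zpow j).conj hA'
    rwa [show c ^ j * (g₂ * β ^ m * g₂⁻¹) * (c ^ j)⁻¹ = c ^ j * g₂ * β ^ m * (c ^ j * g₂)⁻¹ by
      group] at this
  have g3 : ∀ (S : Set G) (j : ℤ), c ^ j * g₂ ∈ S →
      GoodM e β S ((A * B⁻¹) ^ j * A' * ((A * B⁻¹) ^ j)⁻¹) := fun S j h1 =>
    ⟨_, h1, m, a3 j, by rw [tr_conj, h.tA']; linarith⟩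
  have g4 : ∀ (S : Set G) (j : ℤ), c ^ j * g₃ ∈ S →
      GoodM e β S ((A * B⁻¹) ^ j * B' * ((A * B⁻¹) ^ j)⁻¹) := fun S j h1 => by
    refine ⟨_, h1, n, ?_, by rw [tr_conj, h.tB']; linarith⟩
    have := (hC.zpow j).conj hB'
    rwa [show c ^ j * (g₃ * β ^ n * g₃⁻¹) * (c ^ j)⁻¹ = c ^ j * g₃ * β ^ n * (c ^ j * g₃)⁻¹ by
      group] at this
  have hsign : (0 < κ ∧ 0 < m) ∨ (κ < 0 ∧ m < 0) := by
    rcases hm.lt_or_gt with h1 | h1
    · have h2 : (m : ℝ) < 0 := by exact_mod_cast h1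
      refine Or.inr ⟨?_, h1⟩
      by_contra h3
      nlinarith [mul_nonneg (not_lt.1 h3) (mul_pos (neg_pos.2 h2) hL).le]
    · have h2 : (0 : ℝ) < m := by exact_mod_cast h1
      exact Or.inl ⟨(mul_pos_iff_of_pos_right (mul_pos h2 hL)).1 k1, h1⟩
  have pp : ∀ {x : ℝ}, 0 < κ → 0 ≤ x → 0 ≤ κ * x := fun h1 h2 => mul_nonneg h1.le h2
  have nn : ∀ {x : ℝ}, κ < 0 → x ≤ 0 → 0 ≤ κ * x := fun h1 h2 => mul_nonneg_of_nonpos_of_nonpos h1.le h2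
  rcases hex n1 with hS | ⟨m2, hnm, hS⟩
  · have key : ∀ t, 0 ≤ κ * (t - t0) → 0 ≤ κ * (t0 + 2 * (m * Real.log l) - t) → Enc A (GoodM e β
        {g | g = g₁ ∨ g = β ^ m * g₁ ∨ (∃ j : ℤ, g = c ^ j * g₂) ∨ ∃ j : ℤ, g = c ^ j * g₃})
        (axisPt t) := fun t h1 h2 =>
      h.enc_full (g1 _ (Or.inl rfl)) (g2 _ (Or.inr (Or.inl rfl)))
        (fun j => g3 _ j (Or.inr (Or.inr (Or.inl ⟨j, rfl⟩))))
        (fun j => g4 _ j (Or.inr (Or.inr (Or.inr ⟨j, rfl⟩)))) ((k4 t).1 h1) ((k4 t).2.1 h2)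
    rcases hsign with ⟨h1, h2⟩ | ⟨h1, h2⟩
    · have h3 : (1 : ℝ) ≤ m := by exact_mod_cast h2
      have h4 := mul_le_mul_of_nonneg_right h3 hL.le
      exact F.core_enc hl hβ hφ₁ hS hne (m := m) (t1 := t0) fun t b1 b2 =>
        key t (pp h1 (by linarith)) (pp h1 (by linarith))
    · have h3 : (m : ℝ) ≤ -1 := by exact_mod_cast (show m ≤ -1 by omega)
      have h4 := mul_le_mul_of_nonneg_right h3 hL.le
      exact F.core_enc hl hβ hφ₁ hS hne (m := m) (t1 := t0 + 2 * (m * Real.log l)) fun t b1 b2 =>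
        key t (nn h1 (by linarith)) (nn h1 (by linarith))
  have hA0 : ∀ t, sig A (axisPt t) = 0 := fun t => by simp [hAd, sig_diag, axisPt_re]
  obtain ⟨j, σ, hσ, hj⟩ := h.enc_half (by rw [r4]; exact tr_zpow_le hl hnm) (hA0 _) k3
  have n2 : c ^ j * g₂ * β ≠ β * (c ^ j * g₂) := fun h1 => by
    have b1 := a3 j
    have b2 := h.shift j
    rw [((show Commute (c ^ j * g₂) β from h1).zpow_right m).eq, mul_inv_cancel_right] at b1
    have b3 := b1.eq_of_tr hA (by rw [b2.tA']; linarith) (by linarith)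
    have b4 := b2.eq
    have b5 := b2.cr'.2
    rw [b3] at b4 b5
    rw [← inv_injective (mul_left_cancel b4)] at b5
    linarith [h.cr.2]
  have hS' := hS j n2
  have key := fun t h1 h2 h3 => hj (GoodM e β
    {g | g = g₁ ∨ g = β ^ m * g₁ ∨ g = c ^ j * g₂ ∨ ∃ i : ℤ, g = c ^ i * g₃}) (g1 _ (Or.inl rfl))
    (g2 _ (Or.inr (Or.inl rfl))) (g3 _ j (Or.inr (Or.inr (Or.inl rfl))))
    (fun i => g4 _ i (Or.inr (Or.inr (Or.inr ⟨i, rfl⟩)))) (axisPt t) (hA0 t) ((k4 t).1 h1)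
    ((k4 t).2.1 h2) h3
  rcases hsign with ⟨h1, h2⟩ | ⟨h1, h2⟩
  · have h3 : (2 : ℝ) ≤ m := by exact_mod_cast (show 2 ≤ m by rwa [abs_of_pos h2] at m2)
    have h4 := mul_le_mul_of_nonneg_right h3 hL.le
    rcases hσ with rfl | rfl
    · exact F.core_enc hl hβ hφ₁ hS' hne (m := m) (t1 := t0 + m * Real.log l) fun t b1 b2 =>
        key t (pp h1 (by linarith)) (pp h1 (by linarith)) ((k4 t).2.2.1 (pp h1 (by linarith)))
    · exact F.core_enc hl hβ hφ₁ hS' hne (m := m) (t1 := t0) fun t b1 b2 =>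
        key t (pp h1 (by linarith)) (pp h1 (by linarith)) ((k4 t).2.2.2 (pp h1 (by linarith)))
  · have h3 : (m : ℝ) ≤ -2 := by
      exact_mod_cast (show m ≤ -2 by rw [abs_of_neg h2] at m2; omega)
    have h4 := mul_le_mul_of_nonneg_right h3 hL.le
    rcases hσ with rfl | rfl
    · exact F.core_enc hl hβ hφ₁ hS' hne (m := m) (t1 := t0 + 2 * (m * Real.log l)) fun t b1 b2 =>
        key t (nn h1 (by linarith)) (nn h1 (by linarith)) ((k4 t).2.2.1 (nn h1 (by linarith)))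
    · exact F.core_enc hl hβ hφ₁ hS' hne (m := m) (t1 := t0 + m * Real.log l) fun t b1 b2 =>
        key t (nn h1 (by linarith)) (nn h1 (by linarith)) ((k4 t).2.2.2 (nn h1 (by linarith)))

end diagonal

section top

variable {β k₀ k₁ k₂ k₃ : G} {m n : ℤ} {φ : G → ℝ}

lemma CancelP.swap₁ (h : CancelP e β m n k₀ k₁ k₂ k₃) : CancelP e β m n k₂ k₃ k₀ k₁ := by
  obtain ⟨R, A, B, A', B', s, r1, r2, h1, h2, h3, h4, h5⟩ := h
  exact ⟨R, A', B', A, B, -s, r1, r2, h3, h4, h1, h2, h5.swap₁⟩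

lemma CancelP.swap₂ (h : CancelP e β m n k₀ k₁ k₂ k₃) : CancelP e β n m k₁ k₀ k₃ k₂ := by
  obtain ⟨R, A, B, A', B', s, r1, r2, h1, h2, h3, h4, h5⟩ := h
  exact ⟨R, B, A, B', A', -s, r1, r2, h2, h1, h4, h3, h5.swap₂⟩

lemma Fuchs.top_genP (F : Fuchs G e) (hc : CancelP e β m n k₀ k₁ k₂ k₃)
    (hφ : ∀ a b, φ (a * b) = φ a + φ b)
    (hex : ∀ a c g₁ g₂ g₃ : G, a = k₀ * β * k₀⁻¹ → g₁ = k₁ * k₀⁻¹ →
      c = a ^ m * (g₁ * a ^ n * g₁⁻¹)⁻¹ → g₂ = k₂ * k₀⁻¹ → g₃ = k₃ * k₀⁻¹ → g₁ * a ≠ a * g₁ →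
      Lev φ a {g | g = g₁ ∨ g = a ^ m * g₁ ∨ (∃ j : ℤ, g = c ^ j * g₂) ∨ ∃ j : ℤ, g = c ^ j * g₃} ∨
      (2 ≤ |m| ∧ |n| ≤ |m| ∧ ∀ j : ℤ, c ^ j * g₂ * a ≠ a * (c ^ j * g₂) →
        Lev φ a {g | g = g₁ ∨ g = a ^ m * g₁ ∨ g = c ^ j * g₂ ∨ ∃ i : ℤ, g = c ^ i * g₃})) :
    False := by
  obtain ⟨R, A, B, A', B', s, r1, r2, h1, h2, h3, h4, h5⟩ := hc
  obtain ⟨N, hN⟩ := F.mob k₀
  obtain ⟨K, l, hl, hK⟩ := exists_diag (N * R * N⁻¹) (by rwa [tr_conj])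
  have key : ∀ (k : G) (i : ℤ), k * β ^ i * k⁻¹ =
      k * k₀⁻¹ * (k₀ * β * k₀⁻¹) ^ i * (k * k₀⁻¹)⁻¹ := fun k i => by
    rw [conj_zpow]
    group
  rw [← conj_zpow] at h1
  rw [key] at h2 h3 h4
  exact (F.rechart K).core_pow hl (hK ▸ (hN.conj r1).rechart K) (h1.rechart K) (h2.rechart K)
    (h3.rechart K) (h4.rechart K) (h5.conj K) rfl hφ (hex _ _ _ _ _ rfl rfl rfl rfl rfl)

lemma levelsP (hφ : ∀ a b, φ (a * b) = φ a + φ b) (hβ : φ β = 0) {a c g₁ g₂ g₃ : G}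
    (ha : a = k₀ * β * k₀⁻¹) (hg₁ : g₁ = k₁ * k₀⁻¹) (hc : c = a ^ m * (g₁ * a ^ n * g₁⁻¹)⁻¹)
    (hg₂ : g₂ = k₂ * k₀⁻¹) (hg₃ : g₃ = k₃ * k₀⁻¹) :
    φ a = 0 ∧ φ g₁ = φ k₁ - φ k₀ ∧ φ (a ^ m * g₁) = φ k₁ - φ k₀ ∧
      (∀ j : ℤ, φ (c ^ j * g₂) = φ k₂ - φ k₀) ∧ ∀ j : ℤ, φ (c ^ j * g₃) = φ k₃ - φ k₀ := by
  have hφ' : ∀ a ∈ (⊤ : Subgroup G), ∀ b ∈ (⊤ : Subgroup G), φ (a * b) = φ a + φ b :=
    fun a _ b _ => hφ a b
  have hi : ∀ x, φ x⁻¹ = -φ x := fun x => add_hom_inv hφ' (Subgroup.mem_top x)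
  have h1 : φ a = 0 := by simp only [ha, hφ, hi, hβ]; ring
  have h4 : ∀ i : ℤ, φ (a ^ i) = 0 := add_hom_zpow hφ' (Subgroup.mem_top a) h1
  have h2 : φ c = 0 := by simp only [hc, hφ, hi, h4]; ring
  have h3 : ∀ j : ℤ, φ (c ^ j) = 0 := add_hom_zpow hφ' (Subgroup.mem_top c) h2
  simp only [hg₁, hg₂, hg₃, hφ, hi, h1, h3, h4]
  refine ⟨trivial, ?_, ?_, fun _ => ?_, fun _ => ?_⟩ <;> ring

lemma Fuchs.top_uniqueP (F : Fuchs G e) (hc : CancelP e β m n k₀ k₁ k₂ k₃)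
    (hφ : ∀ a b, φ (a * b) = φ a + φ b) (hβ : φ β = 0)
    (h1 : φ k₁ < φ k₀) (h2 : φ k₂ < φ k₀) (h3 : φ k₃ < φ k₀) : False := by
  refine F.top_genP hc hφ fun a c g₁ g₂ g₃ ha hg₁ hc hg₂ hg₃ _ => Or.inl ?_
  obtain ⟨l0, l1, l2, l3, l4⟩ := levelsP hφ hβ ha hg₁ hc hg₂ hg₃
  refine ⟨Subgroup.closure {a}, fun _ => 0, Subgroup.subset_closure rfl,
    closure_le_ker hφ (by simpa using l0), by simp, rfl, ?_⟩
  rintro g (h | h | ⟨j, h⟩ | ⟨j, h⟩) <;> left <;> rw [h]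
  · linarith
  · linarith
  · linarith [l3 j]
  · linarith [l4 j]

lemma Fuchs.top_ABP (F : Fuchs G e) (hG : HasHoms G) (hc : CancelP e β m n k₀ k₁ k₂ k₃)
    (hφ : ∀ a b, φ (a * b) = φ a + φ b) (hβ : φ β = 0)
    (h1 : φ k₁ = φ k₀) (h2 : φ k₂ < φ k₀) (h3 : φ k₃ < φ k₀) : False := by
  refine F.top_genP hc hφ fun a c g₁ g₂ g₃ ha hg₁ hc hg₂ hg₃ n1 => Or.inl ?_
  obtain ⟨l0, l1, l2, l3, l4⟩ := levelsP hφ hβ ha hg₁ hc hg₂ hg₃
  obtain ⟨ψ, p1, p2, p3⟩ := exists_neg_hom hG n1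
  have ma : a ∈ Subgroup.closure {a, g₁} := Subgroup.subset_closure (by simp)
  have mg : g₁ ∈ Subgroup.closure {a, g₁} := Subgroup.subset_closure (by simp)
  refine ⟨_, ψ, ma, closure_le_ker hφ (by simp [l0, l1, h1]), p1, p2, ?_⟩
  rintro g (h | h | ⟨j, h⟩ | ⟨j, h⟩) <;> rw [h]
  · exact Or.inr ⟨mg, p3⟩
  · have mm := Subgroup.zpow_mem _ ma m
    exact Or.inr ⟨Subgroup.mul_mem _ mm mg, by
      rw [p1 _ mm _ mg, add_hom_zpow p1 ma p2]; linarith⟩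
  · left; linarith [l3 j]
  · left; linarith [l4 j]

lemma Fuchs.top_AAP (F : Fuchs G e) (hG : HasHoms G) (hc : CancelP e β m n k₀ k₁ k₂ k₃)
    (hφ : ∀ a b, φ (a * b) = φ a + φ b) (hβ : φ β = 0) (m2 : 2 ≤ |m|) (hnm : |n| ≤ |m|)
    (h1 : φ k₁ < φ k₀) (h2 : φ k₂ = φ k₀) (h3 : φ k₃ < φ k₀) : False := by
  refine F.top_genP hc hφ fun a c g₁ g₂ g₃ ha hg₁ hc hg₂ hg₃ _ => Or.inr ⟨m2, hnm, fun j n2 => ?_⟩
  obtain ⟨l0, l1, l2, l3, l4⟩ := levelsP hφ hβ ha hg₁ hc hg₂ hg₃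
  obtain ⟨ψ, p1, p2, p3⟩ := exists_neg_hom hG n2
  have ma : a ∈ Subgroup.closure {a, c ^ j * g₂} := Subgroup.subset_closure (by simp)
  have mg : c ^ j * g₂ ∈ Subgroup.closure {a, c ^ j * g₂} := Subgroup.subset_closure (by simp)
  refine ⟨_, ψ, ma, closure_le_ker hφ (by simp [l0, l3, h2]), p1, p2, ?_⟩
  rintro g (h | h | h | ⟨i, h⟩) <;> rw [h]
  · left; linarith
  · left; linarith
  · exact Or.inr ⟨mg, p3⟩
  · left; linarith [l4 i]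

lemma Fuchs.top_oppP (F : Fuchs G e) (hc : CancelP e β m n k₀ k₁ k₂ k₃)
    (hφ : ∀ a b, φ (a * b) = φ a + φ b) (hβ : φ β = 0)
    (h1 : φ k₁ < φ k₀) (h2 : φ k₂ < φ k₀) (H : Subgroup G) (hH : ∀ h ∈ H, φ h = 0)
    (ψ : G → ℝ) (hψ : ∀ x ∈ H, ∀ y ∈ H, ψ (x * y) = ψ x + ψ y)
    (ma : k₀ * β * k₀⁻¹ ∈ H) (mb : k₁ * β * k₁⁻¹ ∈ H) (mh : k₃ * k₀⁻¹ ∈ H)
    (pa : ψ (k₀ * β * k₀⁻¹) = 0) (pb : ψ (k₁ * β * k₁⁻¹) = 0) (ph : ψ (k₃ * k₀⁻¹) ≠ 0) : False := by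
  wlog hneg : ψ (k₃ * k₀⁻¹) < 0 generalizing ψ
  · exact this (fun x => -ψ x) (fun x hx y hy => by simp only [hψ x hx y hy]; ring)
      (by simp [pa]) (by simp [pb]) (by simpa using ph)
      (by simpa using (ph.lt_or_gt.resolve_left hneg))
  refine F.top_genP hc hφ fun a c g₁ g₂ g₃ ha hg₁ hc hg₂ hg₃ _ => Or.inl ?_
  obtain ⟨l0, l1, l2, l3, l4⟩ := levelsP hφ hβ ha hg₁ hc hg₂ hg₃
  rw [show k₁ * β * k₁⁻¹ = g₁ * a * g₁⁻¹ by rw [ha, hg₁]; group] at mb pb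
  rw [← ha] at ma pa
  rw [← hg₃] at mh hneg
  rw [← conj_zpow] at hc
  have m1 := H.zpow_mem ma m
  have m2 := H.zpow_mem mb n
  have mc : c ∈ H := hc ▸ H.mul_mem m1 (H.inv_mem m2)
  have pc : ψ c = 0 := by
    rw [hc, hψ _ m1 _ (H.inv_mem m2), add_hom_inv hψ m2, add_hom_zpow hψ ma pa,
      add_hom_zpow hψ mb pb]
    simp
  refine ⟨H, ψ, ma, hH, hψ, pa, ?_⟩
  rintro g (h | h | ⟨j, h⟩ | ⟨j, h⟩) <;> rw [h]
  · left; linarith
  · left; linarith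
  · left; linarith [l3 j]
  · exact Or.inr ⟨H.mul_mem (H.zpow_mem mc j) mh, by
      rwa [hψ _ (H.zpow_mem mc j) _ mh, add_hom_zpow hψ mc pc, zero_add]⟩

lemma add_hom_zpow' {φ : G → ℝ} {H : Subgroup G}
    (hφ : ∀ a ∈ H, ∀ b ∈ H, φ (a * b) = φ a + φ b) {a : G} (ha : a ∈ H) (j : ℤ) :
    φ (a ^ j) = j * φ a := by
  induction j using Int.induction_on with
  | zero => simpa using add_hom_one hφ
  | succ j ih =>
    rw [zpow_add_one, hφ _ (H.zpow_mem ha _) _ ha, ih]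
    push_cast
    ring
  | pred j ih =>
    rw [zpow_sub_one, hφ _ (H.zpow_mem ha _) _ (H.inv_mem ha), ih, add_hom_inv hφ ha]
    push_cast
    ring

lemma Fuchs.not_cancel_of_homP (F : Fuchs G e) (hG : HasHoms G) (hc : CancelP e β m n k₀ k₁ k₂ k₃)
    (hφ : ∀ a b, φ (a * b) = φ a + φ b) (hβ : φ β = 0) (hmn : m + n ≠ 0) (m2 : 2 ≤ |m|)
    (hnm : |n| ≤ |m|) : φ k₁ = φ k₀ ∧ φ k₂ = φ k₀ ∧ φ k₃ = φ k₀ := by
  have hφ' : ∀ a b, -φ (a * b) = -φ a + -φ b := fun a b => by rw [hφ]; ring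
  have hβ' : -φ β = 0 := by simp [hβ]
  by_contra hne
  rcases four_cases (φ k₀) (φ k₁) (φ k₂) (φ k₃) with h | ⟨h1, h2, h3⟩ | ⟨h1, h2, h3⟩ |
    ⟨h1, h2, h3⟩ | ⟨h1, h2, h3⟩ | ⟨h1, h2, h3⟩ | ⟨h1, h2, h3⟩ | ⟨h1, h2, h3⟩ | ⟨h1, h2, h3⟩ |
    ⟨h1, h2, h3⟩ | ⟨h1, h2, h3⟩ | ⟨h1, h2, h3⟩ | ⟨h1, h2, h3⟩ | ⟨h1, h2, h3⟩
  · exact hne h
  · exact F.top_uniqueP hc hφ hβ h1 h2 h3
  · exact F.top_uniqueP hc.swap₂ hφ hβ h1 h2 h3
  · exact F.top_uniqueP hc.swap₁ hφ hβ h1 h2 h3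
  · exact F.top_uniqueP hc.swap₁.swap₂ hφ hβ h1 h2 h3
  · exact F.top_uniqueP (φ := fun x => -φ x) hc hφ' hβ' (by simpa) (by simpa) (by simpa)
  · exact F.top_uniqueP (φ := fun x => -φ x) hc.swap₂ hφ' hβ' (by simpa) (by simpa) (by simpa)
  · exact F.top_uniqueP (φ := fun x => -φ x) hc.swap₁ hφ' hβ' (by simpa) (by simpa) (by simpa)
  · exact F.top_uniqueP (φ := fun x => -φ x) hc.swap₁.swap₂ hφ' hβ' (by simpa) (by simpa)
      (by simpa)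
  · exact F.top_ABP hG hc hφ hβ h1 h2 h3
  · exact F.top_ABP (φ := fun x => -φ x) hG hc hφ' hβ' (by simpa) (by simpa) (by simpa)
  · exact F.top_AAP hG hc hφ hβ m2 hnm h1 h2 h3
  · exact F.top_AAP (φ := fun x => -φ x) hG hc hφ' hβ' m2 hnm (by simpa) (by simpa) (by simpa)
  · obtain ⟨R, A, B, A', B', s, r1, r2, a1, a2, a3, a4, a5⟩ := id hc
    have hT : ∀ a ∈ (⊤ : Subgroup G), ∀ b ∈ (⊤ : Subgroup G), φ (a * b) = φ a + φ b :=
      fun a _ b _ => hφ a b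
    have hi : ∀ x, φ x⁻¹ = -φ x := fun x => add_hom_inv hT (Subgroup.mem_top x)
    let S : Set G := {k₀ * β * k₀⁻¹, k₁ * β * k₁⁻¹, k₃ * k₀⁻¹, k₂ * k₁⁻¹}
    have ma : k₀ * β * k₀⁻¹ ∈ Subgroup.closure S := Subgroup.subset_closure (by simp [S])
    have mb : k₁ * β * k₁⁻¹ ∈ Subgroup.closure S := Subgroup.subset_closure (by simp [S])
    have mh : k₃ * k₀⁻¹ ∈ Subgroup.closure S := Subgroup.subset_closure (by simp [S])
    have mh' : k₂ * k₁⁻¹ ∈ Subgroup.closure S := Subgroup.subset_closure (by simp [S])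
    have hH : ∀ h ∈ Subgroup.closure S, φ h = 0 := by
      refine closure_le_ker hφ ?_
      rintro g (rfl | rfl | rfl | rfl) <;> simp only [hφ, hi, hβ] <;> linarith
    have hnc := a1.not_comm a2 a5.cr a5.tA
    have hrel : k₀ * β ^ m * k₀⁻¹ * (k₁ * β ^ n * k₁⁻¹)⁻¹ =
        k₂ * β ^ m * k₂⁻¹ * (k₃ * β ^ n * k₃⁻¹)⁻¹ :=
      F.eq_of_acts (a1.mul a2.inv) (a5.eq ▸ a3.mul a4.inv)
    have e1 : k₂ * β ^ m * k₂⁻¹ = k₂ * k₁⁻¹ * (k₁ * β * k₁⁻¹) ^ m * (k₂ * k₁⁻¹)⁻¹ := by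
      rw [conj_zpow]
      group
    have e2 : k₃ * β ^ n * k₃⁻¹ = k₃ * k₀⁻¹ * (k₀ * β * k₀⁻¹) ^ n * (k₃ * k₀⁻¹)⁻¹ := by
      rw [conj_zpow]
      group
    rw [e1, e2, ← conj_zpow (a := k₀), ← conj_zpow (a := k₁)] at hrel
    rw [← conj_zpow (a := k₀), ← conj_zpow (a := k₁)] at hnc
    have z1 := fun i : ℤ => Subgroup.zpow_mem _ ma i
    have z2 := fun i : ℤ => Subgroup.zpow_mem _ mb i
    obtain ⟨ψ, p1, pa, b, hb, p3⟩ := hG _ ⟨_, z1 m, _, z2 n, hnc⟩ _ ma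
    have pb : ψ (k₁ * β * k₁⁻¹) = 0 := by
      have ma' := Subgroup.mul_mem _ (Subgroup.mul_mem _ mh' (z2 m)) (Subgroup.inv_mem _ mh')
      have mb' := Subgroup.mul_mem _ (Subgroup.mul_mem _ mh (z1 n)) (Subgroup.inv_mem _ mh)
      have e3 := congrArg ψ hrel
      rw [p1 _ (z1 m) _ (Subgroup.inv_mem _ (z2 n)), p1 _ ma' _ (Subgroup.inv_mem _ mb'),
        add_hom_inv p1 (z2 n), add_hom_inv p1 mb', add_hom_conj p1 mh' (z2 m),
        add_hom_conj p1 mh (z1 n), add_hom_zpow' p1 ma, add_hom_zpow' p1 ma, add_hom_zpow' p1 mb,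
        add_hom_zpow' p1 mb, pa] at e3
      have e4 : ((m + n : ℤ) : ℝ) ≠ 0 := by exact_mod_cast hmn
      refine (mul_eq_zero.1 (?_ : ((m + n : ℤ) : ℝ) * _ = 0)).resolve_left e4
      push_cast
      linarith
    by_cases ph : ψ (k₃ * k₀⁻¹) = 0
    · have ph' : ψ (k₂ * k₁⁻¹) ≠ 0 := fun ph' => p3 (add_hom_closure p1 (by
        rintro g (rfl | rfl | rfl | rfl) <;> assumption) b hb)
      rcases h3.lt_or_gt with h4 | h4
      · exact F.top_oppP (φ := fun x => -φ x) hc.swap₂ hφ' hβ' (by simpa) (by simpa [h1])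
          _ (by simpa using hH) ψ p1 mb ma mh' pb pa ph'
      · exact F.top_oppP hc.swap₂ hφ hβ h4 (by linarith) _ hH ψ p1 mb ma mh' pb pa ph'
    · rcases h3.lt_or_gt with h4 | h4
      · exact F.top_oppP hc hφ hβ h4 (by linarith) _ hH ψ p1 ma mb mh pa pb ph
      · exact F.top_oppP (φ := fun x => -φ x) hc hφ' hβ' (by simpa) (by simpa [h2])
          _ (by simpa using hH) ψ p1 ma mb mh pa pb ph

end top

theorem Fuchs.not_cancelP (F : Fuchs G e) (hG : HasHoms G) {β k₁ k₂ k₃ : G} {m n : ℤ}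
    (hmn : m + n ≠ 0) : ¬ CancelP e β m n 1 k₁ k₂ k₃ := by
  intro hc
  obtain ⟨R, A, B, A', B', s, r1, r2, a1, a2, a3, a4, a5⟩ := id hc
  have tA := a5.tA
  have tB := a5.tB
  by_cases hEq : m = n
  · subst hEq
    obtain ⟨N, hN⟩ := F.mob k₁
    have h1 : tr B = tr A := by
      have h2 : Acts e (β ^ m) A := by simpa using a1
      rw [a2.eq_of_tr (hN.conj h2) (by linarith) (by rw [tr_conj]; linarith), tr_conj]
    exact F.not_cancel hG (β := β ^ m) ⟨A, B, A', B', -s, a1, a2, a3, a4, tA, h1, a5.tA',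
      a5.tB'.trans h1, a5.eq, a5.cr, by rw [neg_neg]; exact a5.cr'⟩
  have hm := a1.exp_ne tA
  have hn := a2.exp_ne tB
  let S : Set G := {β, k₁, k₂, k₃}
  have m0 : β ∈ Subgroup.closure S := Subgroup.subset_closure (by simp [S])
  have m1 : k₁ ∈ Subgroup.closure S := Subgroup.subset_closure (by simp [S])
  have m2 : k₂ ∈ Subgroup.closure S := Subgroup.subset_closure (by simp [S])
  have m3 : k₃ ∈ Subgroup.closure S := Subgroup.subset_closure (by simp [S])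
  have hnc : k₁ * β ≠ β * k₁ := fun h => a1.not_comm a2 a5.cr tA (by
    rw [((show Commute k₁ β from h).zpow_right n).eq, mul_inv_cancel_right, one_mul, inv_one,
      mul_one, ← zpow_add, ← zpow_add, add_comm])
  obtain ⟨φ, p1, p2, b, hb, p3⟩ := hG _ ⟨_, m1, _, m0, hnc⟩ _ m0
  have hc' : CancelP e (⟨β, m0⟩ : Subgroup.closure S) m n 1 ⟨k₁, m1⟩ ⟨k₂, m2⟩ ⟨k₃, m3⟩ := hc
  have h1 : φ 1 = 0 := add_hom_one p1
  have q : φ k₁ = φ 1 ∧ φ k₂ = φ 1 ∧ φ k₃ = φ 1 := by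
    rcases le_total |n| |m| with h | h
    · exact Fuchs.not_cancel_of_homP (G := Subgroup.closure S) (φ := fun g => φ g)
        (F.subgroup _) (hG.subgroup _) hc' (fun a b => p1 _ a.2 _ b.2) p2 hmn
        (by rcases abs_cases m with h1 | h1 <;> rcases abs_cases n with h2 | h2 <;> omega) h
    · obtain ⟨q1, q2, q3⟩ := Fuchs.not_cancel_of_homP (G := Subgroup.closure S) (φ := fun g => φ g)
        (F.subgroup _) (hG.subgroup _) hc'.swap₂ (fun a b => p1 _ a.2 _ b.2) p2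
        (by rwa [add_comm])
        (by rcases abs_cases m with h1 | h1 <;> rcases abs_cases n with h2 | h2 <;> omega) h
      exact ⟨q1.symm, q3.trans q1.symm, q2.trans q1.symm⟩
  refine p3 (add_hom_closure p1 ?_ b hb)
  rintro g (rfl | rfl | rfl | rfl)
  exacts [p2, q.1.trans h1, q.2.1.trans h1, q.2.2.trans h1]

end Pool.Agent.MP_46f5ab_gt
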