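import Pool.Agent.Mg.F46f5abp.G625690
import Pool.Agent.MP_46f5ab_gt.PwCount
import Pool.Agent.MP_46f5ab_gt.PwNo

/-! The three geometric cases for two powers. -/

namespace Pool.Agent.MP_46f5ab_gt

open Set Filter Topology UpperHalfPlane MatrixGroups

section

variable {G X : Type*} [Group G] [MulAction G X]

lemma FibSum.transfer_PM {co co' : X → ℂ} {b g : G} {n : ℤ} (h : Conf co co')
    (hG : ∀ g : G, Conf co fun x => co (g • x))
    (H : ∀ c d, IsLiftedLoop co' b c → IsLiftedLoop co' b⁻¹ d →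
      (∀ p ∈ fib b c d g, crossDet co' c d p ≠ 0) → FibSum co' b c d g n)
    {c d : ℝ → X} (hc : IsLiftedLoop co b c) (hd : IsLiftedLoop co b⁻¹ d)
    (ht : ∀ p ∈ fib b c d g, crossDet co c d p ≠ 0) : FibSum co b c d g n := by
  obtain ⟨h1, h2⟩ := H c d (h.lifted hc) (h.lifted hd) fun p hp => by
    obtain ⟨r, g1, g2⟩ := h.crossDet hG hc.smooth hd.smooth hp.1
    rw [g2]
    exact mul_ne_zero g1.ne' (ht p hp)
  refine ⟨h1, Eq.trans (finsum_mem_congr rfl fun p hp => ?_) h2⟩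
  obtain ⟨r, g1, g2⟩ := h.crossDet hG hc.smooth hd.smooth hp.1
  rw [g2, sign_mul, sign_pos g1, one_mul]

lemma zero_of_commute_PM {β g : G} (ho : Function.Injective fun n : ℤ => β ^ n) (hg : Commute β g)
    {i j : ℤ} (h : β ^ i * g * β ^ j = g) : i + j = 0 := by
  rw [mul_assoc, ← (hg.zpow_left j).eq, ← mul_assoc, ← zpow_add, mul_eq_right] at h
  exact ho (h.trans (zpow_zero β).symm)

end

lemma flat_sum_PM {G : Type*} [Group G] [MulAction G ℂ] (F : FreePD G ℂ) {u : G → ℂ}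
    (hu : ∀ (g : G) (z : ℂ), g • z = z + u g) {b : G} (hb : b ≠ 1) :
    (Function.Injective fun n : ℤ => b ^ n) ∧ (∀ g, Commute b g) ∧
      ∀ c d, IsLiftedLoop (fun z : ℂ => z) b c → IsLiftedLoop (fun z : ℂ => z) b⁻¹ d → ∀ g,
        (∀ p ∈ fib b c d g, crossDet (fun z : ℂ => z) c d p ≠ 0) →
          FibSum (fun z : ℂ => z) b c d g 0 := by
  have hw : u b ≠ 0 := fun h => hb (F.free b 0 (by simp [hu, h]))
  have hG : ∀ g : G, Conf (fun z : ℂ => z) fun z => g • z := fun g =>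
    conf_affine one_ne_zero (b := u g) fun z => by rw [hu, one_mul]
  have hIw : Complex.I / u b ≠ 0 := div_ne_zero Complex.I_ne_zero hw
  let co : ℂ → ℂ := fun z => Complex.I / u b * z
  have c1 : Conf (fun z : ℂ => z) co := conf_affine hIw (b := 0) fun z => (add_zero _).symm
  have c2 : Conf co fun z : ℂ => z := conf_affine (inv_ne_zero hIw) (b := 0) fun z => by
    simp only [co, add_zero, inv_mul_cancel_left₀ hIw]
  have hsh : ∀ z, co (b • z) = co z + Complex.I := fun z => by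
    simp only [co, hu, mul_add, div_mul_cancel₀ _ hw]
  have hcm : ∀ g, Commute b g := fun g =>
    F.cancel (x := 0) (by rw [mul_smul, mul_smul]; simp [hu, add_comm])
  exact ⟨zpow_inj_of_shift hsh 0, hcm, fun c d hc hd g ht => FibSum.transfer_PM c1 hG
    (fun c d hc hd ht => fibSum_par (mul_right_injective₀ hIw) (c1.act c2 hG) hc hd
      (fun x => span_of_shift hsh hc _) one_pos (τ := Complex.I) (by simpa using hsh)
      (zpow_inj_of_shift hsh 0) (hcm g) ht) hc hd ht⟩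

theorem mainPow_flat {G : Type*} [Group G] [MulAction G ℂ] (F : FreePD G ℂ)
    (hT : ∀ g : G, ∃ w, ∀ z : ℂ, g • z = z + w) {β : G} (hp : IsPrimitiveClass β)
    {m n : ℤ} (hm : m ≠ 0) (hn : n ≠ 0) (hmn : m ≠ n) : MainPow (fun z : ℂ => z) β m n := by
  have hM := main_flat F hT hp
  choose u hu using hT
  obtain ⟨h1, h2, -⟩ := flat_sum_PM F hu hp.ne_one
  refine pow_of_link (fun g => conf_affine one_ne_zero (b := u g) fun z => by rw [hu, one_mul]) hM
    (fun _ => 0) (fun _ _ c d hc hd => F.finite_meet hc.smooth.continuous hd.smooth.continuous)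
    (fun N hN => (flat_sum_PM F hu fun h => ?_).2.2) (fun g i j h => zero_of_commute_PM h1 (h2 g) h)
    (fun _ h => absurd rfl h) (fun _ h => absurd rfl h) (fun _ _ _ _ _ _ _ _ _ _ => rfl) hm hn hmn
  have h3 : (N : ℤ) = 0 := h1 (((zpow_natCast β N).trans h).trans (zpow_zero β).symm)
  omega

variable {G X : Type*} [Group G] [MulAction G X] [TopologicalSpace X] {e : X ≃ₜ ℍ} {β : G}

lemma par_order_PM {τ : ℝ} (hβ : Acts e β (transl τ)) (hτ : τ ≠ 0) :
    Function.Injective fun n : ℤ => β ^ n := by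
  have hτ' : (τ : ℂ) ≠ 0 := by exact_mod_cast hτ
  refine zpow_inj_of_shift (co := fun x => Complex.I / τ * cd e x) (fun z => ?_) (e.symm I)
  simp only [cd, hβ _, coe_transl_smul, mul_add, div_mul_cancel₀ _ hτ']

lemma par_free_PM {τ : ℝ} (hβ : Acts e β (transl τ)) (hτ : τ ≠ 0) {g : G} {M : SL(2, ℝ)}
    (hM : Acts e g M) (h10 : M 1 0 ≠ 0) (m n : ℤ) (h : β ^ m * g * β ^ n = g) : m = 0 ∧ n = 0 := by
  have b1 : g * β ^ n * g⁻¹ = β ^ (-m) := by
    calc _ = β ^ (-m) * (β ^ m * g * β ^ n) * g⁻¹ := by group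
      _ = _ := by rw [h]; group
  have b2 := hM.conj (hβ.zpow n)
  rw [b1] at b2
  have b3 : (M * transl τ ^ n * M⁻¹) 1 0 = 0 := by
    rcases b2.eq_or (hβ.zpow (-m)) with h | h <;> rw [h, transl_zpow] <;> simp [transl]
  rw [transl_zpow] at b3
  simp only [mul_entry, inv00, inv10, transl, mkSL00, mkSL01, mkSL10, mkSL11] at b3
  have b4 : (n : ℝ) * (τ * M 1 0 ^ 2) = 0 := by linear_combination -b3
  have b5 : n = 0 := by
    exact_mod_cast (mul_eq_zero.1 b4).resolve_right (mul_ne_zero hτ (pow_ne_zero _ h10))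
  rw [b5, zpow_zero, mul_one, mul_eq_right] at h
  exact ⟨par_order_PM hβ hτ (h.trans (zpow_zero β).symm), b5⟩

lemma Fuchs.par_sum_PM (F : Fuchs G e) {τ : ℝ} (hβ : Acts e β (transl τ)) (hτ : τ ≠ 0) {g : G}
    {M : SL(2, ℝ)} (hM : Acts e g M) (hg : M 1 0 = 0 → Commute β g) {c d : ℝ → X}
    (hc : IsLiftedLoop (cd e) β c) (hd : IsLiftedLoop (cd e) β⁻¹ d)
    (ht : ∀ p ∈ fib β c d g, crossDet (cd e) c d p ≠ 0) : FibSum (cd e) β c d g 0 := by
  have hτ' : (τ : ℂ) ≠ 0 := by exact_mod_cast hτ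
  have hIw : Complex.I / τ ≠ 0 := div_ne_zero Complex.I_ne_zero hτ'
  let co : X → ℂ := fun x => Complex.I / τ * cd e x
  have c1 : Conf (cd e) co := conf_affine hIw (b := 0) fun z => (add_zero _).symm
  have c2 : Conf co (cd e) := conf_affine (inv_ne_zero hIw) (b := 0) fun z => by
    simp only [co, add_zero, inv_mul_cancel_left₀ hIw]
  have hG' := c1.act c2 F.conf
  refine FibSum.transfer_PM c1 F.conf ?_ hc hd ht
  clear ht hc hd c d
  intro c d hc hd ht
  have hi : Function.Injective co := (mul_right_injective₀ hIw).comp cd_inj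
  have hsh : ∀ z, co (β • z) = co z + Complex.I := fun z => by
    simp only [co, cd, hβ _, coe_transl_smul, mul_add, div_mul_cancel₀ _ hτ']
  have hcont : ∀ {b : G} {c : ℝ → X}, IsLiftedLoop co b c → Continuous c := fun h =>
    continuous_of_cd (c2.lifted h).smooth.continuous
  have hre : ∀ x, (co x).re = -(e x).im / τ := fun x => by
    simp [co, cd, div_eq_mul_inv, ← Complex.ofReal_inv, mul_comm]
  by_cases h10 : M 1 0 = 0
  · exact fibSum_par hi hG' hc hd (fun x => span_of_shift hsh hc _) one_pos (τ := Complex.I)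
      (by simpa using hsh) (par_order_PM hβ hτ) (hg h10) ht
  obtain ⟨C, hC⟩ := periodic_bound (f := fun t => ((e (c t)).im)⁻¹)
    ((continuous_im.comp (e.continuous.comp (hcont hc))).inv₀ fun t => im_ne_zero _) fun t => by
      rw [hc.closes, hβ, ← coe_im, coe_transl_smul]
      simp
  have hβ' := hβ.zpow (-1)
  rw [zpow_neg_one, transl_zpow] at hβ'
  obtain ⟨H, hH⟩ := periodic_bound (f := fun t => (e (d t)).im)
    (continuous_im.comp (e.continuous.comp (hcont hd))) fun t => by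
      rw [hd.closes, hβ', ← coe_im, coe_transl_smul]
      simp
  obtain ⟨d1, d2⟩ := drift (f := fun t => (M 1 0 * (e (d t)).re + M 1 1) / (-(M 1 0 * τ)))
    (((continuous_re.comp (e.continuous.comp (hcont hd))).const_mul _).add_const _ |>.div_const _)
    one_pos fun t => by
      rw [hd.closes, hβ', ← coe_re, coe_transl_smul]
      simp
      field_simp
      ring
  obtain ⟨ε, hε⟩ : ∃ ε, ∀ x, (∀ t, (e x).im < (e (c t)).im) → Side (fun u => co (c u)) (co x) ε := by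
    rcases (lt_or_gt_of_ne hτ) with h | h
    · refine ⟨0, fun x hx => Or.inl ⟨rfl, fun t => Or.inl ?_⟩⟩
      rw [Complex.sub_re, hre, hre, ← sub_div]
      exact div_pos_of_neg_of_neg (by linarith [hx t]) h
    · refine ⟨1, fun x hx => Or.inr ⟨rfl, fun t => Or.inl ?_⟩⟩
      rw [Complex.sub_re, hre, hre, ← sub_div]
      exact div_pos (by linarith [hx t]) h
  have hside : ∀ s, H * C / (M 1 0 * τ) ^ 2 + 1 <
      |(M 1 0 * (e (d s)).re + M 1 1) / (-(M 1 0 * τ))| →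
      Side (fun u => co (c u)) (co (g • d s)) ε := by
    intro s hs
    refine hε _ fun t => ?_
    have a0 : 0 < (M 1 0 * τ) ^ 2 := by positivity
    have a1 := (e (c t)).im_pos
    have a2 := (e (d s)).im_pos
    have a3 := (le_abs_self _).trans (hC t)
    have a4 := (le_abs_self _).trans (hH s)
    have a5 : 0 < C := (inv_pos.2 a1).trans_le a3
    have a6 : 0 ≤ H * C / (M 1 0 * τ) ^ 2 := by
      have : 0 < H := a2.trans_le a4
      positivity
    set u := (M 1 0 * (e (d s)).re + M 1 1) / (-(M 1 0 * τ)) with hu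
    have a7 : H * C / (M 1 0 * τ) ^ 2 < u ^ 2 := by
      rw [← sq_abs u]
      nlinarith
    rw [div_lt_iff₀ a0, hu, div_pow, neg_sq, div_mul_cancel₀ _ a0.ne'] at a7
    rw [hM, smul_im, div_lt_iff₀ (den_pos _ _), den]
    rw [inv_le_iff_one_le_mul₀ a1] at a3
    nlinarith [sq_nonneg (M 1 0 * (e (d s)).im), mul_pos a1 (sub_pos.2 a7),
      mul_nonneg (a2.le.trans a4) (sub_nonneg.2 a3), mul_nonneg a1.le (sq_nonneg (M 1 0 * (e (d s)).im))]
  have := fibSum_open hi hG' hc hd (g := g) (fun x => span_of_shift hsh hc _) (ε := ε) (ε' := ε)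
    (par_free_PM hβ hτ hM h10)
    (((tendsto_abs_atBot_atTop.comp d2).eventually (eventually_gt_atTop _)).mono hside)
    (((tendsto_abs_atTop_atTop.comp d1).eventually (eventually_gt_atTop _)).mono hside) ht
  rwa [sub_self] at this

theorem Fuchs.mainPow_par (F : Fuchs G e) (hp : IsPrimitiveClass β) {τ : ℝ}
    (hβ : Acts e β (transl τ)) (hτ : τ ≠ 0)
    {m n : ℤ} (hm : m ≠ 0) (hn : n ≠ 0) (hmn : m ≠ n) : MainPow (cd e) β m n := by
  choose M hM using F.mob
  have hcm : ∀ g, M g 1 0 = 0 → Commute β g := fun g h => by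
    obtain ⟨k, rfl⟩ := F.par_stab hp hβ hτ (hM g) h
    exact Commute.self_zpow β k
  refine pow_of_link F.conf (F.main_par hp hβ hτ) (fun _ => 0)
    (fun _ _ c d hc hd => F.freePD.finite_meet (continuous_of_cd hc.smooth.continuous)
      (continuous_of_cd hd.smooth.continuous))
    (fun N hN c d hc hd g ht => ?_) (fun g i j h => ?_)
    (fun _ h => absurd rfl h) (fun _ h => absurd rfl h) (fun _ _ _ _ _ _ _ _ _ _ => rfl) hm hn hmn
  · have hb := hβ.zpow N
    rw [transl_zpow, zpow_natCast] at hb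
    exact F.par_sum_PM hb (mul_ne_zero (by exact_mod_cast hN.ne') hτ) (hM g)
      (fun h => (hcm g h).pow_left N) hc hd ht
  · by_cases h10 : M g 1 0 = 0
    · exact zero_of_commute_PM (par_order_PM hβ hτ) (hcm g h10) h
    · obtain ⟨rfl, rfl⟩ := par_free_PM hβ hτ (hM g) h10 i j h
      rfl

lemma hyp_free_PM {l : ℝ} (hl : 1 < l) (hβ : Acts e β (diag l (by linarith))) {g : G} {M : SL(2, ℝ)}
    (hM : Acts e g M) (h0 : M 0 0 * M 1 0 * (M 0 1 * M 1 1) ≠ 0) (m n : ℤ)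
    (h : β ^ m * g * β ^ n = g) : m = 0 ∧ n = 0 := by
  have hl0 : 0 < l := by linarith
  have b1 : g * β ^ n * g⁻¹ = β ^ (-m) := by
    calc _ = β ^ (-m) * (β ^ m * g * β ^ n) * g⁻¹ := by group
      _ = _ := by rw [h]; group
  have b2 := hM.conj (hβ.zpow n)
  rw [b1] at b2
  have b3 : (M * diag l hl0 ^ n * M⁻¹) 1 0 = 0 := by
    rcases b2.eq_or (hβ.zpow (-m)) with h | h <;> rw [h, diag_zpow] <;> simp [diag]
  rw [diag_zpow, conj_diag10, mul_eq_zero, sub_eq_zero, ← zpow_neg] at b3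
  have b4 := zpow_right_injective₀ hl0 hl.ne' (b3.resolve_left fun h => h0 (by
    linear_combination M 0 0 * M 0 1 * h))
  have b5 : n = 0 := by omega
  rw [b5, zpow_zero, mul_one, mul_eq_right] at h
  exact ⟨zpow_injective_of_diag hl hβ (h.trans (zpow_zero β).symm), b5⟩

lemma sub_inv_ne_PM {x : ℝ} (hx : 0 < x) (h : x ≠ 1) : x - x⁻¹ ≠ 0 := by
  intro h1
  have h2 : (x - 1) * (x + 1) = 0 := by
    linear_combination x * h1 + mul_inv_cancel₀ hx.ne'
  exact h (sub_eq_zero.1 ((mul_eq_zero.1 h2).resolve_right (by linarith)))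

lemma two_lt_tr_of_ne_PM {x : ℝ} (hx : 0 < x) (h : x ≠ 1) : 2 < tr (diag x hx) := by
  rw [tr_diag]
  have h1 : x + x⁻¹ - 2 = (x - 1) ^ 2 / x := by field_simp; ring
  have h2 : 0 < (x - 1) ^ 2 / x := div_pos (sq_pos_of_ne_zero (sub_ne_zero.2 h)) hx
  linarith

lemma cross_of_lk_PM {x y : ℝ} (hx : 0 < x) (hy : 0 < y) (hx1 : x ≠ 1) (hy1 : y ≠ 1) {M : SL(2, ℝ)}
    (h1 : M 0 0 * M 1 0 * (M 0 1 * M 1 1) < 0) (h2 : 0 < (lk M : ℝ) * (M 1 0 * M 1 1)) :
    Cross (-(lk M * ((x - x⁻¹) * (y - y⁻¹)))) (diag x hx) (M * diag y hy * M⁻¹) := by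
  have a1 := conj_diag01 M hy
  have a2 := conj_diag10 M hy
  have a3 : 0 < ((x - x⁻¹) * (y - y⁻¹)) ^ 2 :=
    sq_pos_of_ne_zero (mul_ne_zero (sub_inv_ne_PM hx hx1) (sub_inv_ne_PM hy hy1))
  generalize M * diag y hy * M⁻¹ = B at a1 a2
  constructor
  · have : comDet (diag x hx) B =
        ((x - x⁻¹) * (y - y⁻¹)) ^ 2 * -(M 0 0 * M 1 0 * (M 0 1 * M 1 1)) := by
      simp only [comDet, mul_entry, diag, mkSL00, mkSL01, mkSL10, mkSL11, a1, a2]
      ring
    rw [this]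
    exact mul_pos a3 (neg_pos.2 h1)
  · have : -((lk M : ℝ) * ((x - x⁻¹) * (y - y⁻¹))) * com10 (diag x hx) B =
        ((x - x⁻¹) * (y - y⁻¹)) ^ 2 * (lk M * (M 1 0 * M 1 1)) := by
      simp only [com10, mul_entry, diag, mkSL00, mkSL10, mkSL11, a2]
      ring
    rw [this]
    exact mul_pos a3 h2

lemma Fuchs.lk_eq_pow_PM (F : Fuchs G e) (hG : HasHoms G) {l : ℝ} (hl : 1 < l)
    (hβ : Acts e β (diag l (by linarith))) {m n : ℤ} (hm : m ≠ 0) (hn : n ≠ 0) (hmn : m ≠ n)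
    {g h : G} {M N : SL(2, ℝ)} (hM : Acts e g M) (hN : Acts e h N)
    (hc : IsConj (β ^ m * (g * β ^ n * g⁻¹)) (β ^ m * (h * β ^ n * h⁻¹)))
    (m1 : M 0 0 * M 1 0 * (M 0 1 * M 1 1) < 0) (n1 : N 0 0 * N 1 0 * (N 0 1 * N 1 1) < 0) :
    lk M = lk N := by
  obtain ⟨-, m2, m3⟩ := (lk_cases m1.ne).resolve_left fun h => h.1.not_gt m1
  obtain ⟨-, n2, n3⟩ := (lk_cases n1.ne).resolve_left fun h => h.1.not_gt n1
  by_contra hne
  have h1 : lk N = -lk M := by omega
  obtain ⟨k, hk⟩ := isConj_iff.1 hc.symm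
  obtain ⟨K, hK⟩ := F.mob k
  have hl0 : 0 < l := by linarith
  have hne1 : ∀ j : ℤ, j ≠ 0 → l ^ j ≠ 1 := fun j hj h =>
    hj (zpow_right_injective₀ hl0 hl.ne' (h.trans (zpow_zero l).symm))
  have hx := hne1 m hm
  have hy := hne1 (-n) (neg_ne_zero.2 hn)
  have hA := hβ.zpow m
  have hB := hβ.zpow (-n)
  rw [diag_zpow] at hA hB
  have tA := two_lt_tr_of_ne_PM (zpow_pos hl0 m) hx
  have tB := two_lt_tr_of_ne_PM (zpow_pos hl0 (-n)) hy
  have c1 := cross_of_lk_PM (zpow_pos hl0 m) (zpow_pos hl0 (-n)) hx hy m1 m3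
  have c2 := (cross_of_lk_PM (zpow_pos hl0 m) (zpow_pos hl0 (-n)) hx hy n1 n3).conj K
  rw [h1, Int.cast_neg, neg_mul, neg_neg] at c2
  generalize diag (l ^ m) (zpow_pos hl0 m) = A at hA tA c1 c2
  generalize diag (l ^ (-n)) (zpow_pos hl0 (-n)) = B at hB tB c1 c2
  have a1 : Acts e (k * h * β ^ (-n) * (k * h)⁻¹) (K * (N * B * N⁻¹) * K⁻¹) := by
    have := hK.conj (hN.conj hB)
    rwa [show k * (h * β ^ (-n) * h⁻¹) * k⁻¹ = k * h * β ^ (-n) * (k * h)⁻¹ by group] at this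
  have t1 : tr (M * B * M⁻¹) = tr B := tr_conj _ _
  have t2 : tr (K * A * K⁻¹) = tr A := tr_conj _ _
  have t3 : tr (K * (N * B * N⁻¹) * K⁻¹) = tr B := by rw [tr_conj, tr_conj]
  refine F.not_cancelP hG (β := β) (k₁ := g) (k₂ := k) (k₃ := k * h) (m := m) (n := -n) (by omega)
    ⟨_, A, _, _, _, _, hβ, two_lt_tr_diag hl, by simpa using hA, hM.conj hB, hK.conj hA, a1,
      tA, by rwa [t1], t2, t3.trans t1.symm, ?_, c1, c2⟩
  have a2 := hA.mul (hM.conj hB).inv
  have a3 := (hK.conj hA).mul a1.inv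
  rw [show β ^ m * (g * β ^ (-n) * g⁻¹)⁻¹ =
      k * β ^ m * k⁻¹ * (k * h * β ^ (-n) * (k * h)⁻¹)⁻¹ by
    rw [show (g * β ^ (-n) * g⁻¹)⁻¹ = g * β ^ n * g⁻¹ by group, ← hk]; group] at a2
  exact a2.eq_of_tr a3 (by linarith [c1.tr_gt' tA (by rwa [t1])])
    (by linarith [c2.tr_gt' (by rwa [t2]) (by rwa [t3])])

theorem Fuchs.mainPow_hyp (F : Fuchs G e) (hG : HasHoms G) {l : ℝ} (hl : 1 < l)
    (hp : IsPrimitiveClass β) (hβ : Acts e β (diag l (by linarith)))
    {m n : ℤ} (hm : m ≠ 0) (hn : n ≠ 0) (hmn : m ≠ n) : MainPow (cd e) β m n := by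
  classical
  choose M hM using F.mob
  have hne := fun g => F.entries_ne hl hp hβ (hM g)
  obtain ⟨link, h0, h1⟩ : ∃ link : G → ℤ, (∀ g, (∃ n : ℤ, g = β ^ n) → link g = 0) ∧
      ∀ g, (¬ ∃ n : ℤ, g = β ^ n) → link g = lk (M g) :=
    ⟨fun g => if ∃ n : ℤ, g = β ^ n then 0 else lk (M g), fun g h => if_pos h, fun g h => if_neg h⟩
  have hlink : ∀ g, link g ≠ 0 →
      M g 0 0 * M g 1 0 * (M g 0 1 * M g 1 1) < 0 ∧ link g = lk (M g) := fun g h => by
    have h2 : ¬ ∃ n : ℤ, g = β ^ n := fun h2 => h (h0 g h2)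
    exact ⟨((lk_cases (hne g h2)).resolve_left fun h3 => h ((h1 g h2).trans h3.2)).1, h1 g h2⟩
  refine pow_of_link F.conf (F.main_hyp hG hl hp hβ) link
    (fun _ _ c d hc hd => F.freePD.finite_meet (continuous_of_cd hc.smooth.continuous)
      (continuous_of_cd hd.smooth.continuous))
    (fun N hN c d hc hd g ht => ?_) (fun g i j h => ?_)
    (fun g h i j h2 => (hyp_free_PM hl hβ (hM g) (hlink g h).1.ne i j h2).1) (fun g h => ?_)
    (fun m n hm hn hmn g h a1 a2 a3 => ?_) hm hn hmn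
  · have hl' : 1 < l ^ N := one_lt_pow₀ hl hN.ne'
    have hb : Acts e (β ^ N) (diag (l ^ N) (by linarith)) := by
      have := hβ.zpow N
      rw [diag_zpow] at this
      simpa only [zpow_natCast] using this
    obtain ⟨a1, a2⟩ := F.fibSum_hyp hl' hb hc hd
    by_cases h : ∃ n : ℤ, g = β ^ n
    · rw [h0 g h]
      obtain ⟨k, rfl⟩ := h
      exact fibSum_par cd_inj F.conf hc hd a1 (l := (l ^ N) ^ 2) (by positivity) (τ := 0)
        (fun x => by rw [cd, hb, coe_diag_smul, cd, add_zero]) (zpow_injective_of_diag hl' hb)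
        ((Commute.self_zpow β k).pow_left N) ht
    · rw [h1 g h]
      exact a2 g _ (hM g) (hne g h) ht
  · by_cases h2 : ∃ n : ℤ, g = β ^ n
    · obtain ⟨k, rfl⟩ := h2
      exact zero_of_commute_PM (zpow_injective_of_diag hl hβ) (Commute.self_zpow β k) h
    · obtain ⟨rfl, rfl⟩ := hyp_free_PM hl hβ (hM g) (hne g h2) i j h
      rfl
  · obtain ⟨a1, a2⟩ := hlink g h
    rcases ((lk_cases a1.ne).resolve_left fun h => h.1.not_gt a1).2.1 with a3 | a3 <;>
      rw [a2, a3] <;> rfl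
  · rw [(hlink g a2).2, (hlink h a3).2]
    exact F.lk_eq_pow_PM hG hl hβ hm hn hmn (hM g) (hM h) a1 (hlink g a2).1 (hlink h a3).1

lemma Fuchs.mainPow_rechart (F : Fuchs G e) (K : SL(2, ℝ)) {m n : ℤ}
    (h : MainPow (cd (Pool.Agent.MP_46f5ab_gt.rechart e K)) β m n) : MainPow (cd e) β m n := by
  refine MainPow.transfer (conf_smul K) ?_ F.conf (F.rechart K).conf h
  have := conf_smul (e := Pool.Agent.MP_46f5ab_gt.rechart e K) K⁻¹
  simp only [rechart_apply, inv_smul_smul] at this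
  exact this

theorem Fuchs.mainPow (F : Fuchs G e) (hG : HasHoms G) (hp : IsPrimitiveClass β)
    {m n : ℤ} (hm : m ≠ 0) (hn : n ≠ 0) (hmn : m ≠ n) : MainPow (cd e) β m n := by
  obtain ⟨M, hM, h2⟩ := F.exists_tr hp.ne_one
  rcases h2.eq_or_lt with h | h
  · obtain ⟨K, τ, hτ, h3⟩ := exists_parab M h.symm fun h1 =>
      hp.ne_one (F.eq_of_acts (h1 ▸ hM) Acts.one)
    exact F.mainPow_rechart K
      ((F.rechart K).mainPow_par hp (τ := τ) (h3 ▸ hM.rechart K :) hτ hm hn hmn)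
  · obtain ⟨K, l, hl, h3⟩ := exists_diag M h
    exact F.mainPow_rechart K ((F.rechart K).mainPow_hyp hG hl hp (h3 ▸ hM.rechart K) hm hn hmn)

end Pool.Agent.MP_46f5ab_gt
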